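import Pool.Agent.SLR.Defs
import Pool.Agent.OHG.All
import Pool.Agent.OHT.Final
import Pool.Agent.GPC.K3
import Pool.Agent.GPC.K7

set_option autoImplicit false

open PowerSeries Finset MeasureTheory

namespace Pool.Agent.SLR

open Pool.Agent.OHG Pool.Agent.GPC

variable {V : Type} [Fintype V] [DecidableEq V]

private lemma m2_one_sub_ne (w : ℝ) : (1 : ℂ) - Complex.I * (w : ℂ) ≠ 0 := by
  intro h
  have := congrArg Complex.re h
  simp at this

private lemma m2_factor (τ l : ℝ) (hτ : 0 < τ) (hl : l ≠ 0) :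
    ((τ ^ (1 / 2 : ℝ) : ℝ) : ℂ) * (1 + 4 * (Complex.I * τ) * (l : ℂ)) ^ (-(1 / 2) : ℂ) =
      (4 * Complex.I * l) ^ (-(1 / 2) : ℂ) *
        (1 - Complex.I / (4 * τ * (l : ℂ))) ^ (-(1 / 2) : ℂ) := by
  have hτc : (τ : ℂ) ≠ 0 := by exact_mod_cast hτ.ne'
  have hlc : (l : ℂ) ≠ 0 := by exact_mod_cast hl
  have hx : (4 * Complex.I * (l : ℂ)) ≠ 0 :=
    mul_ne_zero (mul_ne_zero (by norm_num) Complex.I_ne_zero) hlc
  have hyeq : (1 : ℂ) - Complex.I / (4 * τ * (l : ℂ)) =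
      1 - Complex.I * ((1 / (4 * τ * l) : ℝ) : ℂ) := by
    push_cast
    ring
  have hy : (1 : ℂ) - Complex.I / (4 * τ * (l : ℂ)) ≠ 0 := by
    rw [hyeq]
    exact m2_one_sub_ne _
  have hyre : 0 < ((1 : ℂ) - Complex.I / (4 * τ * (l : ℂ))).re := by
    rw [hyeq]
    simp
  have hprod : (1 : ℂ) + 4 * (Complex.I * τ) * (l : ℂ) =
      (τ : ℂ) * ((4 * Complex.I * (l : ℂ)) * (1 - Complex.I / (4 * τ * (l : ℂ)))) := by
    field_simp
    ring_nf
    rw [Complex.I_sq]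
    ring
  have hax : |Complex.arg (4 * Complex.I * (l : ℂ))| ≤ Real.pi / 2 := by
    rw [Complex.abs_arg_le_pi_div_two_iff]
    simp
  have hay : |Complex.arg ((1 : ℂ) - Complex.I / (4 * τ * (l : ℂ)))| < Real.pi / 2 := by
    rw [Complex.abs_arg_lt_pi_div_two_iff]
    exact Or.inl hyre
  have hlog : Complex.log ((4 * Complex.I * (l : ℂ)) * (1 - Complex.I / (4 * τ * (l : ℂ)))) =
      Complex.log (4 * Complex.I * (l : ℂ)) +
        Complex.log (1 - Complex.I / (4 * τ * (l : ℂ))) := by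
    apply Complex.log_mul hx hy
    have h1 := abs_le.1 hax
    have h2 := abs_lt.1 hay
    constructor
    · linarith [h1.1, h2.1]
    · linarith [h1.2, h2.2]
  rw [hprod, Complex.cpow_def_of_ne_zero (mul_ne_zero hτc (mul_ne_zero hx hy)),
    Complex.cpow_def_of_ne_zero hx, Complex.cpow_def_of_ne_zero hy,
    Complex.log_ofReal_mul hτ (mul_ne_zero hx hy), hlog, Real.rpow_def_of_pos hτ,
    Complex.ofReal_exp, ← Complex.exp_add, ← Complex.exp_add]
  congr 1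
  push_cast
  ring

private lemma m2_det (L : Matrix V V ℝ) (u : V → ℝ) :
    (Am L u).det = (∏ v, Real.sqrt (u v)) * L.det * ∏ v, Real.sqrt (u v) := by
  have h : Am L u = Matrix.diagonal (fun v => Real.sqrt (u v)) * L *
      Matrix.diagonal (fun v => Real.sqrt (u v)) := by
    ext v w
    simp only [Am, Matrix.of_apply, Matrix.mul_diagonal, Matrix.diagonal_mul]
    ring
  rw [h, Matrix.det_mul, Matrix.det_mul, Matrix.det_diagonal]

private lemma m2_eig_ne {L : Matrix V V ℝ} (hL : L.IsHermitian) (hd : L.det ≠ 0) {u : V → ℝ}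
    (hu : ∀ v, 0 < u v) (i : V) : (Am_herm hL u).eigenvalues i ≠ 0 := by
  have hdet : (Am L u).det ≠ 0 := by
    rw [m2_det]
    have hp : (∏ v, Real.sqrt (u v)) ≠ 0 :=
      Finset.prod_ne_zero_iff.2 fun v _ => (Real.sqrt_pos.2 (hu v)).ne'
    exact mul_ne_zero (mul_ne_zero hp hd) hp
  rw [(Am_herm hL u).det_eq_prod_eigenvalues] at hdet
  have := Finset.prod_ne_zero_iff.1 hdet i (Finset.mem_univ i)
  intro h
  apply this
  rw [h]
  simp

private lemma m2_split {L : Matrix V V ℝ} (hL : L.IsHermitian) (hd : L.det ≠ 0) {u : V → ℝ}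
    (hu : ∀ v, 0 < u v) {τ : ℝ} (hτ : 0 < τ) :
    ((τ ^ ((3 / 2 : ℝ) * Fintype.card V) : ℝ) : ℂ) * Kf L (Complex.I * τ) u =
      (∏ i, ((4 * Complex.I * ((Am_herm hL u).eigenvalues i : ℂ)) ^ (-(1 / 2) : ℂ)) ^ 3) *
        ∏ i, ((1 - Complex.I / (4 * τ * ((Am_herm hL u).eigenvalues i : ℂ))) ^
            (-(1 / 2) : ℂ)) ^ 3 := by
  have hK : Kf L (Complex.I * τ) u =
      ∏ i, ((1 + 4 * (Complex.I * τ) * ((Am_herm hL u).eigenvalues i : ℂ)) ^
        (-(1 / 2) : ℂ)) ^ 3 := by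
    unfold Kf
    rw [dif_pos (Am_herm hL u)]
  have ht : ((τ ^ ((3 / 2 : ℝ) * Fintype.card V) : ℝ) : ℂ) =
      ∏ _i : V, ((τ ^ (1 / 2 : ℝ) : ℝ) : ℂ) ^ 3 := by
    rw [Finset.prod_const, Finset.card_univ, ← Complex.ofReal_pow, ← Complex.ofReal_pow]
    congr 1
    rw [← Real.rpow_natCast (τ ^ (1 / 2 : ℝ)) 3, ← Real.rpow_mul hτ.le,
      ← Real.rpow_natCast _ (Fintype.card V), ← Real.rpow_mul hτ.le]
    congr 1
    push_cast
    ring
  rw [hK, ht, ← Finset.prod_mul_distrib, ← Finset.prod_mul_distrib]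
  refine Finset.prod_congr rfl fun i _ => ?_
  rw [← mul_pow, ← mul_pow, m2_factor τ _ hτ (m2_eig_ne hL hd hu i)]

private lemma m2_tendsto (l : ℝ) :
    Filter.Tendsto (fun τ : ℝ => (1 - Complex.I / (4 * τ * (l : ℂ))) ^ (-(1 / 2) : ℂ))
      Filter.atTop (nhds 1) := by
  have h1 : Filter.Tendsto (fun τ : ℝ => (1 : ℂ) - Complex.I / (4 * τ * (l : ℂ)))
      Filter.atTop (nhds 1) := by
    have h0 : Filter.Tendsto (fun τ : ℝ => (1 : ℂ) - (Complex.I / (4 * (l : ℂ))) *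
        ((τ⁻¹ : ℝ) : ℂ)) Filter.atTop (nhds (1 - (Complex.I / (4 * (l : ℂ))) * ((0 : ℝ) : ℂ))) :=
      Filter.Tendsto.sub tendsto_const_nhds (Filter.Tendsto.mul tendsto_const_nhds
        ((Complex.continuous_ofReal.tendsto 0).comp tendsto_inv_atTop_zero))
    have h2 : (1 : ℂ) - (Complex.I / (4 * (l : ℂ))) * ((0 : ℝ) : ℂ) = 1 := by simp
    rw [h2] at h0
    refine h0.congr fun τ => ?_
    push_cast
    ring
  have h3 : ContinuousAt (fun z : ℂ => z ^ (-(1 / 2) : ℂ)) 1 :=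
    continuousAt_id.cpow continuousAt_const (by simp)
  have h4 := h3.tendsto.comp h1
  simpa [Function.comp_def] using h4

omit [DecidableEq V] in
private lemma m2_tendsto_prod (l : V → ℝ) :
    Filter.Tendsto (fun τ : ℝ => ∏ i, ((1 - Complex.I / (4 * τ * (l i : ℂ))) ^
      (-(1 / 2) : ℂ)) ^ 3) Filter.atTop (nhds 1) := by
  have h := tendsto_finsetProd (f := fun (i : V) (τ : ℝ) =>
    ((1 - Complex.I / (4 * τ * (l i : ℂ))) ^ (-(1 / 2) : ℂ)) ^ 3) (a := fun _ => (1 : ℂ) ^ 3)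
    (x := Filter.atTop) (Finset.univ : Finset V) (fun i _ => (m2_tendsto (l i)).pow 3)
  simpa using h

theorem kernel_factor (L : Matrix V V ℝ) (hL : L.IsHermitian) (hd : L.det ≠ 0) :
    ∃ c : ℂ, c ≠ 0 ∧ ∀ (τ : ℝ) (u : V → ℝ), 0 < τ → (∀ v, 0 < u v) →
      ((τ ^ ((3 / 2 : ℝ) * Fintype.card V) : ℝ) : ℂ) * Kf L (Complex.I * τ) u =
        c * ((∏ v, (u v) ^ (-(3 / 2) : ℝ) : ℝ) : ℂ) *
          ∏ i, ((1 - Complex.I / (4 * τ * ((Am_herm hL u).eigenvalues i : ℂ))) ^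
            (-(1 / 2) : ℂ)) ^ 3 := by
  obtain ⟨c, hc, C, hC⟩ := Kf_asy L hL hd
  refine ⟨c, hc, fun τ u hτ hu => ?_⟩
  rw [m2_split hL hd hu hτ]
  congr 1
  set D : ℂ := ∏ i, ((4 * Complex.I * ((Am_herm hL u).eigenvalues i : ℂ)) ^
    (-(1 / 2) : ℂ)) ^ 3 with hD
  have h1 : Filter.Tendsto (fun τ : ℝ => ((τ ^ ((3 / 2 : ℝ) * Fintype.card V) : ℝ) : ℂ) *
      Kf L (Complex.I * τ) u) Filter.atTop (nhds D) := by
    have h := (m2_tendsto_prod (fun i => (Am_herm hL u).eigenvalues i)).const_mul D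
    rw [mul_one] at h
    refine h.congr' ?_
    filter_upwards [Filter.eventually_gt_atTop 0] with t ht
    rw [m2_split hL hd hu ht]
  have h2 : Filter.Tendsto (fun τ : ℝ => ((τ ^ ((3 / 2 : ℝ) * Fintype.card V) : ℝ) : ℂ) *
      Kf L (Complex.I * τ) u) Filter.atTop
      (nhds (c * ((∏ v, (u v) ^ (-(3 / 2) : ℝ) : ℝ) : ℂ))) := by
    rw [tendsto_iff_norm_sub_tendsto_zero]
    refine squeeze_zero' (Filter.Eventually.of_forall fun t => norm_nonneg _)
      (g := fun t => C / t * ((1 + ∑ v, u v) ^ Fintype.card V *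
        ∏ v, (u v) ^ (-(5 / 2) : ℝ))) ?_ ?_
    · filter_upwards [Filter.eventually_ge_atTop 1] with t ht
      exact hC t u ht hu
    · have h3 : Filter.Tendsto (fun t : ℝ => C / t) Filter.atTop (nhds 0) :=
        Filter.Tendsto.div_atTop tendsto_const_nhds Filter.tendsto_id
      have h4 := h3.mul_const ((1 + ∑ v, u v) ^ Fintype.card V *
        ∏ v, (u v) ^ (-(5 / 2) : ℝ))
      simpa using h4
  exact tendsto_nhds_unique h1 h2

end Pool.Agent.SLR
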