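import Pool.Agent.SLR.Defs
import Pool.Agent.OHG.All
import Pool.Agent.OHT.Final

set_option autoImplicit false

open PowerSeries Finset MeasureTheory

namespace Pool.Agent.SLR

open Pool.Agent.OHG Pool.Agent.GPC

variable {V : Type} [Fintype V] [DecidableEq V]

theorem inv_eig (A : Matrix V V ℝ) (hA : A.IsHermitian) (hA' : A⁻¹.IsHermitian) (hd : A.det ≠ 0)
    (f : ℝ → ℂ) : ∏ i, f (hA'.eigenvalues i) = ∏ i, f ((hA.eigenvalues i)⁻¹) := by
  have hne : ∀ i, hA.eigenvalues i ≠ 0 := by
    intro i h
    apply hd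
    rw [hA.det_eq_prod_eigenvalues]
    exact Finset.prod_eq_zero (Finset.mem_univ i) (by simp [h])
  set U : Matrix V V ℝ := (hA.eigenvectorUnitary : Matrix V V ℝ) with hU
  set D : Matrix V V ℝ := Matrix.diagonal hA.eigenvalues with hD
  set D' : Matrix V V ℝ := Matrix.diagonal (fun i => (hA.eigenvalues i)⁻¹) with hD'
  have hUU : U * star U = 1 := by
    rw [hU]; exact Unitary.mul_star_self_of_mem hA.eigenvectorUnitary.2
  have hUU' : star U * U = 1 := by
    rw [hU]; exact Unitary.star_mul_self_of_mem hA.eigenvectorUnitary.2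
  have hs : A = U * D * star U := by
    have h := hA.spectral_theorem
    rw [Unitary.conjStarAlgAut_apply] at h
    exact h
  have hDD : D * D' = 1 := by
    rw [hD, hD', Matrix.diagonal_mul_diagonal, ← Matrix.diagonal_one]
    congr 1
    funext i
    exact mul_inv_cancel₀ (hne i)
  have hinv : A⁻¹ = U * D' * star U := by
    apply Matrix.inv_eq_right_inv
    rw [hs]
    calc U * D * star U * (U * D' * star U) = U * D * (star U * U) * D' * star U := by
          simp only [Matrix.mul_assoc]
      _ = U * (D * D') * star U := by rw [hUU']; simp only [Matrix.mul_assoc, Matrix.one_mul]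
      _ = 1 := by rw [hDD, Matrix.mul_one, hUU]
  have hc : A⁻¹.charpoly = ∏ i, (Polynomial.X - Polynomial.C ((hA.eigenvalues i)⁻¹)) := by
    rw [hinv, Matrix.charpoly_mul_comm, ← Matrix.mul_assoc, hUU', Matrix.one_mul, hD',
      Matrix.charpoly_diagonal]
  have hc' : A⁻¹.charpoly = ∏ i, (Polynomial.X - Polynomial.C (hA'.eigenvalues i)) := hA'.charpoly_eq
  have hroots : ∀ g : V → ℝ, (∏ i, (Polynomial.X - Polynomial.C (g i))).roots = Multiset.map g Finset.univ.val := by
    intro g
    rw [Polynomial.roots_prod]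
    · simp
    · exact Finset.prod_ne_zero_iff.2 (fun i _ => Polynomial.X_sub_C_ne_zero _)
  have hm : Multiset.map (fun i => (hA.eigenvalues i)⁻¹) Finset.univ.val =
      Multiset.map hA'.eigenvalues Finset.univ.val := by
    rw [← hroots, ← hroots, ← hc, ← hc']
  have h1 : ∏ i, f (hA'.eigenvalues i) = (Multiset.map f (Multiset.map hA'.eigenvalues Finset.univ.val)).prod := by
    rw [Multiset.map_map]; rfl
  have h2 : ∏ i, f ((hA.eigenvalues i)⁻¹) =
      (Multiset.map f (Multiset.map (fun i => (hA.eigenvalues i)⁻¹) Finset.univ.val)).prod := by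
    rw [Multiset.map_map]; rfl
  rw [h1, h2, hm]


end Pool.Agent.SLR
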