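import Pool.Agent.SLR.Defs
import Pool.Agent.OHG.All
import Pool.Agent.OHT.Final
import Pool.Agent.GPC.K1
import Pool.Agent.GPC.K3
import Pool.Agent.SLR.M1

set_option autoImplicit false

open PowerSeries Finset MeasureTheory

namespace Pool.Agent.SLR

open Pool.Agent.OHG Pool.Agent.GPC

variable {V : Type} [Fintype V] [DecidableEq V]

private lemma M3_Am_eq (L : Matrix V V ℝ) (u : V → ℝ) :
    Am L u = Matrix.diagonal (fun v => Real.sqrt (u v)) * L *
      Matrix.diagonal (fun v => Real.sqrt (u v)) := by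
  ext v w
  simp only [Am, Matrix.of_apply, Matrix.mul_diagonal, Matrix.diagonal_mul]
  ring

private lemma M3_det (L : Matrix V V ℝ) (hd : L.det ≠ 0) (u : V → ℝ) (hu : ∀ v, 0 < u v) :
    (Am L u).det ≠ 0 := by
  rw [M3_Am_eq, Matrix.det_mul, Matrix.det_mul, Matrix.det_diagonal]
  have h : ∏ v, Real.sqrt (u v) ≠ 0 :=
    Finset.prod_ne_zero_iff.mpr fun v _ => (Real.sqrt_pos.mpr (hu v)).ne'
  exact mul_ne_zero (mul_ne_zero h hd) h

private lemma M3_inv (L : Matrix V V ℝ) (hd : L.det ≠ 0) (u : V → ℝ) (hu : ∀ v, 0 < u v) :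
    (Am L u)⁻¹ = Matrix.of fun v w => L⁻¹ v w / (Real.sqrt (u v) * Real.sqrt (u w)) := by
  have hs : ∀ v, Real.sqrt (u v) ≠ 0 := fun v => (Real.sqrt_pos.mpr (hu v)).ne'
  have hB : (Matrix.of fun v w => L⁻¹ v w / (Real.sqrt (u v) * Real.sqrt (u w)) : Matrix V V ℝ) =
      Matrix.diagonal (fun v => (Real.sqrt (u v))⁻¹) * L⁻¹ *
      Matrix.diagonal (fun v => (Real.sqrt (u v))⁻¹) := by
    ext v w
    simp only [Matrix.of_apply, Matrix.mul_diagonal, Matrix.diagonal_mul]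
    field_simp
  rw [hB]
  apply Matrix.inv_eq_right_inv
  rw [M3_Am_eq]
  have hD : Matrix.diagonal (fun v => Real.sqrt (u v)) *
      Matrix.diagonal (fun v => (Real.sqrt (u v))⁻¹) = (1 : Matrix V V ℝ) := by
    rw [Matrix.diagonal_mul_diagonal]
    have : (fun v => Real.sqrt (u v) * (Real.sqrt (u v))⁻¹) = fun _ : V => (1 : ℝ) := by
      funext v; exact mul_inv_cancel₀ (hs v)
    rw [this, Matrix.diagonal_one]
  have hD' : Matrix.diagonal (fun v => (Real.sqrt (u v))) *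
      L * Matrix.diagonal (fun v => Real.sqrt (u v)) *
      (Matrix.diagonal (fun v => (Real.sqrt (u v))⁻¹) * L⁻¹ *
      Matrix.diagonal (fun v => (Real.sqrt (u v))⁻¹)) =
      Matrix.diagonal (fun v => (Real.sqrt (u v))) * (L * ((Matrix.diagonal (fun v => Real.sqrt (u v)) *
      Matrix.diagonal (fun v => (Real.sqrt (u v))⁻¹)) * L⁻¹)) *
      Matrix.diagonal (fun v => (Real.sqrt (u v))⁻¹) := by
    simp only [Matrix.mul_assoc]
  rw [hD', hD, Matrix.one_mul, Matrix.mul_nonsing_inv _ (isUnit_iff_ne_zero.mpr hd), Matrix.mul_one, hD]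

private lemma M3_scale (d : V × Fin 3 → ℝ) (hd : ∀ a, 0 < d a) (F : (V × Fin 3 → ℝ) → ℂ) :
    ∫ X : V × Fin 3 → ℝ, F X = ((∏ a, d a : ℝ) : ℂ) * ∫ W : V × Fin 3 → ℝ, F (fun a => d a * W a) := by
  have hdet : (Matrix.diagonal d).det ≠ 0 := by
    rw [Matrix.det_diagonal]
    exact Finset.prod_ne_zero_iff.mpr fun a _ => (hd a).ne'
  have h := Real.smul_map_diagonal_volume_pi hdet
  have hpos : 0 < ∏ a, d a := Finset.prod_pos fun a _ => hd a
  have hfun : (Matrix.toLin' (Matrix.diagonal d) : (V × Fin 3 → ℝ) → (V × Fin 3 → ℝ)) =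
      fun W a => d a * W a := by
    funext W a
    simp [Matrix.toLin'_apply, Matrix.mulVec_diagonal]
  have hemb : MeasurableEmbedding (fun (W : V × Fin 3 → ℝ) (a : V × Fin 3) => d a * W a) :=
    (MeasurableEquiv.piCongrRight
      (fun a => (Homeomorph.mulLeft₀ (d a) (hd a).ne').toMeasurableEquiv)).measurableEmbedding
  conv_lhs => rw [← h]
  rw [integral_smul_measure, hfun, hemb.integral_map, Matrix.det_diagonal, abs_of_pos hpos,
    ENNReal.toReal_ofReal hpos.le, Complex.real_smul]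

private lemma M3_cpow (z : ℂ) (hz : 0 < z.re) :
    (2 * Real.pi / z : ℂ) ^ (1 / 2 : ℂ) = (((2 * Real.pi) ^ (1 / 2 : ℝ) : ℝ) : ℂ) * z ^ (-(1 / 2) : ℂ) := by
  have hz0 : z ≠ 0 := by rintro rfl; simp at hz
  have hz1 : z.arg ≠ Real.pi := by
    intro h
    have := (Complex.arg_eq_pi_iff.mp h).1
    linarith
  have h2 : (0 : ℝ) < 2 * Real.pi := by positivity
  have e1 : (2 * Real.pi / z : ℂ) = ((2 * Real.pi : ℝ) : ℂ) * z⁻¹ := by
    push_cast; rw [div_eq_mul_inv]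
  have hne : ((2 * Real.pi : ℝ) : ℂ) ≠ 0 := by exact_mod_cast h2.ne'
  rw [e1, Complex.cpow_def_of_ne_zero (mul_ne_zero hne (inv_ne_zero hz0)),
    Complex.log_ofReal_mul h2 (inv_ne_zero hz0), Complex.log_inv _ hz1,
    Complex.cpow_def_of_ne_zero hz0, Complex.ofReal_cpow h2.le,
    Complex.cpow_def_of_ne_zero hne, ← Complex.exp_add, Complex.ofReal_log h2.le]
  congr 1
  push_cast
  ring

theorem gauss_inv (L : Matrix V V ℝ) (hL : L.IsHermitian) (hd : L.det ≠ 0) (t : ℝ) (u : V → ℝ)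
    (hu : ∀ v, 0 < u v) :
    ∫ X : V × Fin 3 → ℝ, Complex.exp (-((∑ v, u v * ∑ i, X (v, i) ^ 2 : ℝ) : ℂ) +
      Complex.I * t * ((qf L⁻¹ X : ℝ) : ℂ)) =
    ((Real.pi ^ ((3 / 2 : ℝ) * Fintype.card V) : ℝ) : ℂ) *
      ((∏ v, (u v) ^ (-(3 / 2) : ℝ) : ℝ) : ℂ) *
        ∏ i, ((1 - Complex.I * t / ((Am_herm hL u).eigenvalues i : ℂ)) ^ (-(1 / 2) : ℂ)) ^ 3 := by
  have hA := Am_herm hL u
  have hdA := M3_det L hd u hu
  have hA' : (Am L u)⁻¹.IsHermitian := hA.inv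
  have hs : ∀ v, 0 < Real.sqrt (u v) := fun v => Real.sqrt_pos.mpr (hu v)
  have hs2 : ∀ v, 0 < Real.sqrt (2 * u v) := fun v => Real.sqrt_pos.mpr (by have := hu v; positivity)
  rw [M3_scale (fun a => (Real.sqrt (2 * u a.1))⁻¹) (fun a => inv_pos.mpr (hs2 a.1))]
  have e1 : ∀ W : V × Fin 3 → ℝ,
      Complex.exp (-((∑ v, u v * ∑ i, ((Real.sqrt (2 * u v))⁻¹ * W (v, i)) ^ 2 : ℝ) : ℂ) +
      Complex.I * t * ((qf L⁻¹ (fun a => (Real.sqrt (2 * u a.1))⁻¹ * W a) : ℝ) : ℂ)) =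
      Complex.exp (-(1 : ℂ) * ((∑ a, W a ^ 2 : ℝ) : ℂ) / 2 -
        2 * (-(Complex.I * t / 4)) * ((qf (Am L u)⁻¹ W : ℝ) : ℂ)) := by
    intro W
    have a1 : ∑ v, u v * ∑ i, ((Real.sqrt (2 * u v))⁻¹ * W (v, i)) ^ 2 = (∑ a, W a ^ 2) / 2 := by
      rw [Fintype.sum_prod_type, Finset.sum_div]
      refine Finset.sum_congr rfl fun v _ => ?_
      have : ∀ i, ((Real.sqrt (2 * u v))⁻¹ * W (v, i)) ^ 2 = (2 * u v)⁻¹ * W (v, i) ^ 2 := by
        intro i
        rw [mul_pow, inv_pow, Real.sq_sqrt (by have := hu v; positivity)]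
      simp only [this]
      rw [← Finset.mul_sum]
      have := (hu v).ne'
      field_simp
    have a2 : qf L⁻¹ (fun a => (Real.sqrt (2 * u a.1))⁻¹ * W a) = (qf (Am L u)⁻¹ W) / 2 := by
      rw [M3_inv L hd u hu]
      simp only [qf, Matrix.of_apply]
      rw [Finset.sum_div]
      refine Finset.sum_congr rfl fun v _ => ?_
      rw [Finset.sum_div]
      refine Finset.sum_congr rfl fun w _ => ?_
      have : ∀ i : Fin 3, (Real.sqrt (2 * u v))⁻¹ * W (v, i) * ((Real.sqrt (2 * u w))⁻¹ * W (w, i)) =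
        (1 / 2) * ((Real.sqrt (u v))⁻¹ * (Real.sqrt (u w))⁻¹) * (W (v, i) * W (w, i)) := by
        intro i
        rw [Real.sqrt_mul (by norm_num) (u v), Real.sqrt_mul (by norm_num) (u w)]
        have h2 : Real.sqrt 2 * Real.sqrt 2 = 2 := Real.mul_self_sqrt (by norm_num)
        have h3 : Real.sqrt 2 ≠ 0 := by positivity
        have h4 := (hs v).ne'
        have h5 := (hs w).ne'
        field_simp
        rw [show Real.sqrt 2 ^ 2 = 2 by rw [sq, h2]]
        ring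
      simp only [this]
      rw [← Finset.mul_sum]
      have h4 := (hs v).ne'
      have h5 := (hs w).ne'
      field_simp
    rw [a1, a2]
    congr 1
    push_cast
    ring
  simp only [e1]
  rw [gauss_int (Am L u)⁻¹ hA' (σ := 1) (η := -(Complex.I * t / 4))
    (by
      intro i
      have : (1 + 4 * (-(Complex.I * t / 4)) * (hA'.eigenvalues i : ℂ) : ℂ) =
        1 - ((t * hA'.eigenvalues i : ℝ) : ℂ) * Complex.I := by push_cast; ring
      rw [this]
      simp)]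
  have e2 : ∀ i, ((2 * Real.pi / (1 + 4 * (-(Complex.I * t / 4)) * (hA'.eigenvalues i : ℂ))) ^
      (1 / 2 : ℂ)) ^ 3 = (((2 * Real.pi) ^ (3 / 2 : ℝ) : ℝ) : ℂ) *
        ((1 - Complex.I * t * (hA'.eigenvalues i : ℂ)) ^ (-(1 / 2) : ℂ)) ^ 3 := by
    intro i
    have h0 : (1 + 4 * (-(Complex.I * t / 4)) * (hA'.eigenvalues i : ℂ) : ℂ) =
        1 - Complex.I * t * (hA'.eigenvalues i : ℂ) := by ring
    rw [h0, M3_cpow _ (by simp), mul_pow]
    congr 1
    rw [← Complex.ofReal_pow, ← Real.rpow_natCast, ← Real.rpow_mul (by positivity)]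
    norm_num
  simp only [e2]
  rw [Finset.prod_mul_distrib]
  have e3 := inv_eig (Am L u) hA hA' hdA
    (fun x => ((1 - Complex.I * t * (x : ℂ)) ^ (-(1 / 2) : ℂ)) ^ 3)
  rw [e3, ← mul_assoc]
  have e4 : ∀ i, ((1 - Complex.I * t * (((hA.eigenvalues i)⁻¹ : ℝ) : ℂ)) ^ (-(1 / 2) : ℂ)) ^ 3 =
      ((1 - Complex.I * t / ((Am_herm hL u).eigenvalues i : ℂ)) ^ (-(1 / 2) : ℂ)) ^ 3 := by
    intro i
    rw [Complex.ofReal_inv, ← div_eq_mul_inv]
  simp only [e4]
  congr 1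
  rw [Finset.prod_const, Finset.card_univ, ← Complex.ofReal_pow, ← Complex.ofReal_mul,
    ← Complex.ofReal_mul]
  congr 1
  rw [Fintype.prod_prod_type]
  have e5 : ∀ v, ∏ _i : Fin 3, (Real.sqrt (2 * u v))⁻¹ =
      2 ^ (-(3 / 2) : ℝ) * (u v) ^ (-(3 / 2) : ℝ) := by
    intro v
    rw [Finset.prod_const, Finset.card_univ, Fintype.card_fin, Real.sqrt_eq_rpow,
      ← Real.rpow_neg (by have := hu v; positivity), ← Real.rpow_natCast,
      ← Real.rpow_mul (by have := hu v; positivity), ← Real.mul_rpow (by norm_num) (hu v).le]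
    norm_num
  simp only [e5]
  rw [Finset.prod_mul_distrib, Finset.prod_const, Finset.card_univ, mul_right_comm, ← mul_pow,
    Real.mul_rpow (by norm_num) Real.pi_pos.le, ← mul_assoc, ← Real.rpow_add (by norm_num),
    Real.rpow_mul Real.pi_pos.le, Real.rpow_natCast]
  norm_num

end Pool.Agent.SLR
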