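import Pool.Agent.SLR.Defs
import Pool.Agent.OHG.All
import Pool.Agent.OHT.Final
import Pool.Agent.GPC.K3
import Pool.Agent.SLR.M2
import Pool.Agent.SLR.M3

set_option autoImplicit false

open PowerSeries Finset MeasureTheory

namespace Pool.Agent.SLR

open Pool.Agent.OHG Pool.Agent.GPC

variable {V : Type} [Fintype V] [DecidableEq V]

theorem kernel_gauss (L : Matrix V V ℝ) (hL : L.IsHermitian) (hd : L.det ≠ 0) :
    ∃ c : ℂ, c ≠ 0 ∧ ∀ (t : ℝ) (u : V → ℝ), 0 < t → (∀ v, 0 < u v) →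
      ∫ X : V × Fin 3 → ℝ, Complex.exp (-((∑ v, u v * ∑ i, X (v, i) ^ 2 : ℝ) : ℂ) +
        Complex.I * t * ((qf L⁻¹ X : ℝ) : ℂ)) =
      c * ((t ^ (-(3 / 2 : ℝ) * Fintype.card V) : ℝ) : ℂ) * Kf L (Complex.I / (4 * t)) u := by
  obtain ⟨c₀, hc₀, hk⟩ := kernel_factor L hL hd
  refine ⟨((Real.pi ^ ((3 / 2 : ℝ) * Fintype.card V) : ℝ) : ℂ) / c₀ *
    (((1 / 4 : ℝ) ^ ((3 / 2 : ℝ) * Fintype.card V) : ℝ) : ℂ), ?_, ?_⟩
  · refine mul_ne_zero (div_ne_zero ?_ hc₀) ?_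
    · exact_mod_cast (Real.rpow_pos_of_pos Real.pi_pos _).ne'
    · exact_mod_cast (Real.rpow_pos_of_pos (by norm_num : (0 : ℝ) < 1 / 4) _).ne'
  · intro t u ht hu
    have h1 := hk (1 / (4 * t)) u (by positivity) hu
    have h2 := gauss_inv L hL hd t u hu
    have htc : (t : ℂ) ≠ 0 := by exact_mod_cast ht.ne'
    have e1 : Complex.I * ((1 / (4 * t) : ℝ) : ℂ) = Complex.I / (4 * t) := by
      push_cast
      ring
    have e2 : ∀ i, Complex.I / (4 * ((1 / (4 * t) : ℝ) : ℂ) *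
        ((Am_herm hL u).eigenvalues i : ℂ)) =
        Complex.I * t / ((Am_herm hL u).eigenvalues i : ℂ) := by
      intro i
      push_cast
      by_cases h0 : ((Am_herm hL u).eigenvalues i : ℂ) = 0
      · rw [h0]
        simp
      · field_simp
    have e3 : (1 / (4 * t)) ^ ((3 / 2 : ℝ) * Fintype.card V) =
        (1 / 4 : ℝ) ^ ((3 / 2 : ℝ) * Fintype.card V) * t ^ (-(3 / 2 : ℝ) * Fintype.card V) := by
      rw [show 1 / (4 * t) = (1 / 4) * t⁻¹ by field_simp,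
        Real.mul_rpow (by norm_num) (inv_pos.2 ht).le, Real.inv_rpow ht.le, ← Real.rpow_neg ht.le,
        neg_mul]
    have e4 : ∏ i, ((1 - Complex.I / (4 * ((1 / (4 * t) : ℝ) : ℂ) *
        ((Am_herm hL u).eigenvalues i : ℂ))) ^ (-(1 / 2) : ℂ)) ^ 3 =
        ∏ i, ((1 - Complex.I * t / ((Am_herm hL u).eigenvalues i : ℂ)) ^ (-(1 / 2) : ℂ)) ^ 3 :=
      Finset.prod_congr rfl fun i _ => by rw [e2 i]
    rw [e1, e3, e4] at h1
    rw [h2]
    have h3 : ((∏ v, (u v) ^ (-(3 / 2) : ℝ) : ℝ) : ℂ) *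
        ∏ i, ((1 - Complex.I * t / ((Am_herm hL u).eigenvalues i : ℂ)) ^ (-(1 / 2) : ℂ)) ^ 3 =
        (((1 / 4 : ℝ) ^ ((3 / 2 : ℝ) * Fintype.card V) * t ^ (-(3 / 2 : ℝ) * Fintype.card V) : ℝ) : ℂ) *
          Kf L (Complex.I / (4 * t)) u / c₀ := by
      rw [h1]
      rw [mul_assoc, mul_div_cancel_left₀ _ hc₀]
    rw [mul_assoc, h3]
    push_cast
    ring

end Pool.Agent.SLR
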