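import Pool.Agent.SLR.Defs
import Pool.Agent.OHG.All
import Pool.Agent.OHT.Final
import Pool.Agent.GPC.K6a

set_option autoImplicit false

open PowerSeries Finset MeasureTheory

namespace Pool.Agent.SLR

open Pool.Agent.OHG Pool.Agent.GPC

variable {V : Type} [Fintype V] [DecidableEq V]

private theorem l1_wt {D : Data V} (h : D.IsGraph) (hl : ∀ v, D.lk v v ≠ 0) {v w : V}
    (hw : w ∈ D.nbr v) : D.wt v w ≠ 0 := by
  intro h0
  have h1 := lk_self h v
  rw [Finset.prod_eq_zero hw h0, mul_zero] at h1
  exact hl v h1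

private theorem l1_lk {D : Data V} (h : D.IsGraph) (hl : ∀ v, D.lk v v ≠ 0) (v w : V) :
    D.lk v w ≠ 0 := by
  unfold Data.lk
  rw [Finset.prod_ne_zero_iff]
  intro u _
  refine mul_ne_zero ?_ ?_
  · intro h0
    have h1 := lk_self h u
    rw [h0, zero_mul] at h1
    exact hl u h1
  · rw [Finset.prod_ne_zero_iff]
    intro x hx
    exact l1_wt h hl (Finset.mem_filter.1 hx).1

/-- Two products of the same form have the same sign. -/
private theorem l1_sign {a b m m' x y x' y' : ℤ} (hx : x = a * m) (hy : y = b * m)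
    (hx' : x' = a * m') (hy' : y' = b * m') (h1 : x ≠ 0) (h2 : x' ≠ 0) :
    Int.sign x * Int.sign y = Int.sign x' * Int.sign y' := by
  have hm : m ≠ 0 := by
    rintro rfl
    exact h1 (by rw [hx, mul_zero])
  have hm' : m' ≠ 0 := by
    rintro rfl
    exact h2 (by rw [hx', mul_zero])
  have e1 : Int.sign m * Int.sign m = 1 := by
    rw [← Int.sign_mul]
    exact Int.sign_eq_one_of_pos (mul_self_pos.2 hm)
  have e2 : Int.sign m' * Int.sign m' = 1 := by
    rw [← Int.sign_mul]
    exact Int.sign_eq_one_of_pos (mul_self_pos.2 hm')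
  rw [hx, hy, hx', hy', Int.sign_mul, Int.sign_mul, Int.sign_mul, Int.sign_mul]
  linear_combination (Int.sign a * Int.sign b) * (e1 - e2)

private theorem l1_step {D : Data V} (h : D.IsGraph) (hl : ∀ v, D.lk v v ≠ 0) {s : ℤ}
    (hs : ∀ v, Int.sign (D.lk v v) = s) {v w : V} (hw : w ∈ D.nbr v) (y : V) :
    Int.sign (D.lk v y) * Int.sign (D.lk w y) = s * Int.sign (D.lk v w) := by
  have key : ∀ v w : V, w ∈ D.nbr v → D.On w y v →
      Int.sign (D.lk v y) * Int.sign (D.lk w y) = s * Int.sign (D.lk v w) := by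
    intro v w hw hy
    obtain ⟨h1, h2⟩ := lk_side h hw hy
    have hv : D.On w v v := by
      unfold Data.On
      rw [SimpleGraph.dist_self, add_zero]
    obtain ⟨h3, h4⟩ := lk_side h hw hv
    have h5 := l1_sign h1 h2 h3 h4 (l1_lk h hl _ _) (hl v)
    rw [h5, hs, lk_comm D w v]
  have hadj := mem_nbr.1 hw
  have hd := h.tree.dist_ne_of_adj y hadj
  have hd1 : D.graph.dist v w = 1 := SimpleGraph.dist_eq_one_iff_adj.mpr hadj
  have hd2 : D.graph.dist y v ≤ D.graph.dist y w + D.graph.dist w v :=
    h.tree.connected.dist_triangle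
  have hd3 : D.graph.dist y w ≤ D.graph.dist y v + D.graph.dist v w :=
    h.tree.connected.dist_triangle
  have c1 : D.graph.dist w v = D.graph.dist v w := SimpleGraph.dist_comm
  have c2 : D.graph.dist y v = D.graph.dist v y := SimpleGraph.dist_comm
  have c3 : D.graph.dist y w = D.graph.dist w y := SimpleGraph.dist_comm
  rcases lt_or_gt_of_ne hd with hlt | hgt
  · refine key v w hw ?_
    unfold Data.On
    omega
  · have := key w v (mem_nbr.2 hadj.symm) (by unfold Data.On; omega)
    rw [mul_comm, this, lk_comm D w v]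

theorem lk_sign {s : ℤ} (hs : s = 1 ∨ s = -1) {P : Prime} (hP : Definite s P) :
    ∃ ε : Fin (P.n + 1) → ℤ, (∀ v, ε v = 1 ∨ ε v = -1) ∧
      ∀ v w, 0 < s * ε v * ε w * P.D.lk v w := by
  have hd : ∀ v, 0 < s * P.D.lk v v := by
    intro v
    have h0 : (Pi.single v 1 : Fin (P.n + 1) → ℝ) ≠ 0 := by
      intro h
      have := congrFun h v
      simp at this
    have h1 := hP _ h0
    rw [Finset.sum_eq_single v, Finset.sum_eq_single v] at h1
    · simp only [Pi.single_eq_same, mul_one] at h1
      exact_mod_cast h1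
    · intro w _ hw
      rw [Pi.single_eq_of_ne hw, mul_zero]
    · intro h
      exact absurd (Finset.mem_univ v) h
    · intro w _ hw
      refine Finset.sum_eq_zero fun u _ => ?_
      rw [Pi.single_eq_of_ne hw, mul_zero, zero_mul]
    · intro h
      exact absurd (Finset.mem_univ v) h
  have hl : ∀ v, P.D.lk v v ≠ 0 := by
    intro v h0
    have := hd v
    rw [h0, mul_zero] at this
    exact lt_irrefl _ this
  have hsgn : ∀ v, Int.sign (P.D.lk v v) = s := by
    intro v
    have := hd v
    rcases hs with rfl | rfl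
    · exact Int.sign_eq_one_of_pos (by linarith)
    · exact Int.sign_eq_neg_one_of_neg (by linarith)
  have h := P.isGraph
  have hss : s * s = 1 := by
    rcases hs with rfl | rfl <;> norm_num
  have hne := l1_lk h hl
  have hsq : ∀ v w, Int.sign (P.D.lk v w) * Int.sign (P.D.lk v w) = 1 := by
    intro v w
    rw [← Int.sign_mul]
    exact Int.sign_eq_one_of_pos (mul_self_pos.2 (hne v w))
  -- the function is constant
  have hconst : ∀ r y v, Int.sign (P.D.lk v y) * Int.sign (P.D.lk v r) =
      Int.sign (P.D.lk r y) * s := by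
    intro r y v
    obtain ⟨p⟩ := h.tree.connected.preconnected v r
    induction p with
    | nil => rw [hsgn]
    | @cons a b c hab _ ih =>
      have h1 := l1_step h hl hsgn (mem_nbr.2 hab) y
      have h2 := l1_step h hl hsgn (mem_nbr.2 hab) c
      have h3 := hsq b y
      have h4 := hsq a c
      have h5 := ih
      have h6 : Int.sign (P.D.lk a y) * Int.sign (P.D.lk b y) =
        Int.sign (P.D.lk a c) * Int.sign (P.D.lk b c) := h1.trans h2.symm
      have h7 : Int.sign (P.D.lk a y) * Int.sign (P.D.lk a c) =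
          Int.sign (P.D.lk b y) * Int.sign (P.D.lk b c) := by
        linear_combination (-(Int.sign (P.D.lk a y) * Int.sign (P.D.lk a c))) * h3 +
          (Int.sign (P.D.lk b y) * Int.sign (P.D.lk a c)) * h6 +
          (Int.sign (P.D.lk b y) * Int.sign (P.D.lk b c)) * h4
      rw [h7]
      exact h5
  refine ⟨fun v => s * Int.sign (P.D.lk v 0), ?_, ?_⟩
  · intro v
    have h1 := hsq v 0
    have h2 : (s * Int.sign (P.D.lk v 0)) * (s * Int.sign (P.D.lk v 0)) = 1 := by
      linear_combination (s * s) * h1 + hss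
    exact mul_self_eq_one_iff.1 h2
  · intro v w
    have h1 := hconst 0 w v
    have h2 := hsq v 0
    have h3 : Int.sign (P.D.lk v w) = s * Int.sign (P.D.lk v 0) * Int.sign (P.D.lk w 0) := by
      rw [lk_comm P.D 0 w] at h1
      linear_combination (Int.sign (P.D.lk v 0)) * h1 - Int.sign (P.D.lk v w) * h2
    have h4 : 0 < Int.sign (P.D.lk v w) * P.D.lk v w := by
      rw [Int.sign_mul_self_eq_abs]
      exact abs_pos.2 (hne v w)
    rw [h3] at h4
    have h5 : s * (s * Int.sign (P.D.lk v 0)) * (s * Int.sign (P.D.lk w 0)) * P.D.lk v w =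
        s * Int.sign (P.D.lk v 0) * Int.sign (P.D.lk w 0) * P.D.lk v w := by
      linear_combination
        (s * Int.sign (P.D.lk v 0) * Int.sign (P.D.lk w 0) * P.D.lk v w) * hss
    show 0 < s * (s * Int.sign (P.D.lk v 0)) * (s * Int.sign (P.D.lk w 0)) * P.D.lk v w
    rw [h5]
    exact h4

end Pool.Agent.SLR
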