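import Pool.Agent.SLR.Defs
import Pool.Agent.OHG.All
import Pool.Agent.OHT.Final
import Pool.Agent.GPC.K5a

set_option autoImplicit false

open PowerSeries Finset MeasureTheory

namespace Pool.Agent.SLR

open Pool.Agent.OHG Pool.Agent.GPC

section density
variable (ι : Type) [Fintype ι]

/-- the density of the standard Gaussian measure -/
private noncomputable def l3_dens (x : EuclideanSpace ℝ ι) : ℝ :=
  ((2 * Real.pi) ^ ((Fintype.card ι : ℝ) / 2))⁻¹ * Real.exp (-‖x‖ ^ 2 / 2)

private theorem l3_dens_nonneg (x : EuclideanSpace ℝ ι) : 0 ≤ l3_dens ι x := by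
  unfold l3_dens
  have := Real.pi_pos
  positivity

private theorem l3_dens_cont : Continuous (l3_dens ι) := by
  unfold l3_dens
  fun_prop

private theorem l3_dens_int : Integrable (l3_dens ι) := by
  unfold l3_dens
  refine Integrable.const_mul ?_ _
  have h := (GaussianFourier.integrable_cexp_neg_mul_sq_norm_add
    (b := (1 / 2 : ℂ)) (by norm_num) 0 (0 : EuclideanSpace ℝ ι)).norm
  refine h.congr (Filter.Eventually.of_forall fun x => ?_)
  simp only [Complex.norm_exp]
  congr 1
  simp
  norm_cast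
  ring

private theorem l3_density : ProbabilityTheory.stdGaussian (EuclideanSpace ℝ ι) =
    (volume : Measure (EuclideanSpace ℝ ι)).withDensity
    (fun x => ENNReal.ofReal (l3_dens ι x)) := by
  have hfin : IsFiniteMeasure ((volume : Measure (EuclideanSpace ℝ ι)).withDensity
      (fun x => ENNReal.ofReal (l3_dens ι x))) :=
    isFiniteMeasure_withDensity_ofReal (l3_dens_int ι).2
  apply Measure.ext_of_charFun
  ext t
  rw [ProbabilityTheory.charFun_stdGaussian, charFun_apply,
    integral_withDensity_eq_integral_toReal_smul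
      (l3_dens_cont ι).measurable.ennreal_ofReal (by simp)]
  have hp := Real.pi_pos
  have h1 : ∀ x : EuclideanSpace ℝ ι, (ENNReal.ofReal (l3_dens ι x)).toReal •
      Complex.exp ((inner ℝ x t : ℝ) * Complex.I) =
      ((((2 * Real.pi) ^ ((Fintype.card ι : ℝ) / 2))⁻¹ : ℝ) : ℂ) *
        Complex.exp (-(1 / 2 : ℂ) * (‖x‖ : ℂ) ^ 2 + Complex.I * (inner ℝ t x : ℝ)) := by
    intro x
    rw [ENNReal.toReal_ofReal (l3_dens_nonneg ι x), Complex.real_smul]
    unfold l3_dens
    rw [Complex.ofReal_mul, mul_assoc, Complex.ofReal_exp, ← Complex.exp_add,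
      real_inner_comm t x]
    congr 3
    · push_cast
      ring
    · ring
  simp only [h1]
  rw [integral_const_mul, GaussianFourier.integral_cexp_neg_mul_sq_norm_add (by norm_num)]
  have h2 : (Real.pi / (1 / 2 : ℂ)) ^ (Module.finrank ℝ (EuclideanSpace ℝ ι) / 2 : ℂ) =
      (((2 * Real.pi) ^ ((Fintype.card ι : ℝ) / 2) : ℝ) : ℂ) := by
    rw [Complex.ofReal_cpow (by positivity), finrank_euclideanSpace]
    push_cast
    congr 1
    ring
  rw [h2, ← mul_assoc, ← Complex.ofReal_mul, inv_mul_cancel₀ (by positivity), Complex.ofReal_one,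
    one_mul, Complex.I_sq]
  congr 1
  ring

private theorem l3_std (q : MvPolynomial ι ℝ) :
    ∫ x, MvPolynomial.eval (fun a => x a) q ∂(ProbabilityTheory.stdGaussian (EuclideanSpace ℝ ι)) =
      (∫ W : ι → ℝ, MvPolynomial.eval W q * Real.exp (-(∑ a, W a ^ 2) / 2)) /
        Real.sqrt (2 * Real.pi) ^ Fintype.card ι := by
  rw [l3_density, integral_withDensity_eq_integral_toReal_smul
      (l3_dens_cont ι).measurable.ennreal_ofReal (by simp),
    ← (PiLp.volume_preserving_toLp ι).integral_comp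
      (MeasurableEquiv.toLp 2 (ι → ℝ)).measurableEmbedding, ← integral_div]
  congr 1
  ext W
  rw [ENNReal.toReal_ofReal (l3_dens_nonneg ι _)]
  unfold l3_dens
  have hp := Real.pi_pos
  have h2 : (2 * Real.pi) ^ ((Fintype.card ι : ℝ) / 2) = Real.sqrt (2 * Real.pi) ^ Fintype.card ι := by
    rw [Real.sqrt_eq_rpow, ← Real.rpow_natCast, ← Real.rpow_mul (by positivity)]
    congr 1
    ring
  rw [h2, EuclideanSpace.real_norm_sq_eq, smul_eq_mul]
  simp only
  ring

end density

/-! ### The chain rule -/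

section chain
variable {ι : Type} [Fintype ι] [DecidableEq ι]

/-- the linear substitution -/
private noncomputable def l3_f (R : Matrix ι ι ℝ) (a : ι) : MvPolynomial ι ℝ :=
  ∑ b, MvPolynomial.C (R a b) * MvPolynomial.X b

private theorem l3_pderiv_f (R : Matrix ι ι ℝ) (a c : ι) :
    MvPolynomial.pderiv c (l3_f R a) = MvPolynomial.C (R a c) := by
  unfold l3_f
  rw [map_sum, Finset.sum_eq_single c]
  · rw [MvPolynomial.pderiv_C_mul, MvPolynomial.pderiv_X_self, mul_one]
  · intro b _ hb
    rw [MvPolynomial.pderiv_C_mul, MvPolynomial.pderiv_X_of_ne (fun h => hb h), mul_zero]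
  · intro h
    exact absurd (mem_univ c) h

private theorem l3_chain (R : Matrix ι ι ℝ) (c : ι) (p : MvPolynomial ι ℝ) :
    MvPolynomial.pderiv c (MvPolynomial.bind₁ (l3_f R) p) =
      ∑ a, MvPolynomial.C (R a c) * MvPolynomial.bind₁ (l3_f R) (MvPolynomial.pderiv a p) := by
  induction p using MvPolynomial.induction_on with
  | C r => simp
  | add p q hp hq => simp only [map_add, hp, hq, mul_add, Finset.sum_add_distrib]
  | mul_X p n hp =>
    rw [map_mul, MvPolynomial.bind₁_X_right, MvPolynomial.pderiv_mul, hp, l3_pderiv_f]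
    have e : ∀ a : ι, MvPolynomial.C (R a c) * MvPolynomial.bind₁ (l3_f R)
        (MvPolynomial.pderiv a (p * MvPolynomial.X n)) =
        MvPolynomial.C (R a c) * MvPolynomial.bind₁ (l3_f R) (MvPolynomial.pderiv a p) * l3_f R n +
        (if a = n then MvPolynomial.C (R n c) * MvPolynomial.bind₁ (l3_f R) p else 0) := by
      intro a
      rw [MvPolynomial.pderiv_mul, map_add, map_mul, map_mul, MvPolynomial.bind₁_X_right]
      by_cases h : a = n
      · subst h
        rw [if_pos rfl, MvPolynomial.pderiv_X_self, map_one]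
        ring
      · rw [if_neg h, MvPolynomial.pderiv_X_of_ne (fun h' => h h'.symm), map_zero]
        ring
    simp only [e, Finset.sum_add_distrib, Finset.sum_ite_eq', Finset.mem_univ, if_true,
      Finset.sum_mul]
    ring

private theorem l3_lap (R S : Matrix ι ι ℝ) (hR : R * R.transpose = S) (p : MvPolynomial ι ℝ) :
    ∑ c, MvPolynomial.pderiv c (MvPolynomial.pderiv c (MvPolynomial.bind₁ (l3_f R) p)) =
      MvPolynomial.bind₁ (l3_f R)
        (∑ a, ∑ b, MvPolynomial.C (S a b) * MvPolynomial.pderiv a (MvPolynomial.pderiv b p)) := by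
  have e : ∀ c, MvPolynomial.pderiv c (MvPolynomial.pderiv c (MvPolynomial.bind₁ (l3_f R) p)) =
      ∑ b, ∑ a, MvPolynomial.C (R a c * R b c) *
        MvPolynomial.bind₁ (l3_f R) (MvPolynomial.pderiv a (MvPolynomial.pderiv b p)) := by
    intro c
    rw [l3_chain, map_sum]
    refine Finset.sum_congr rfl fun b _ => ?_
    rw [MvPolynomial.pderiv_C_mul, l3_chain, Finset.mul_sum]
    refine Finset.sum_congr rfl fun a _ => ?_
    rw [map_mul]
    ring
  simp only [e]
  rw [Finset.sum_comm]
  have e2 : ∀ b, ∑ c, ∑ a, MvPolynomial.C (R a c * R b c) *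
        MvPolynomial.bind₁ (l3_f R) (MvPolynomial.pderiv a (MvPolynomial.pderiv b p)) =
      ∑ a, MvPolynomial.C (S a b) *
        MvPolynomial.bind₁ (l3_f R) (MvPolynomial.pderiv a (MvPolynomial.pderiv b p)) := by
    intro b
    rw [Finset.sum_comm]
    refine Finset.sum_congr rfl fun a _ => ?_
    rw [← Finset.sum_mul, ← map_sum, ← hR]
    rfl
  simp only [e2]
  rw [Finset.sum_comm]
  simp only [map_sum, map_mul, MvPolynomial.bind₁_C_right]

private theorem l3_eval (R : Matrix ι ι ℝ) (x : ι → ℝ) (p : MvPolynomial ι ℝ) :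
    MvPolynomial.eval x (MvPolynomial.bind₁ (l3_f R) p) =
      MvPolynomial.eval (fun a => ∑ b, R a b * x b) p := by
  rw [MvPolynomial.eval, MvPolynomial.eval₂Hom_bind₁]
  congr 2
  ext a
  unfold l3_f
  simp

private theorem l3_const (R : Matrix ι ι ℝ) (p : MvPolynomial ι ℝ) :
    MvPolynomial.constantCoeff (MvPolynomial.bind₁ (l3_f R) p) = MvPolynomial.constantCoeff p := by
  rw [← MvPolynomial.eval_zero]
  have := l3_eval R 0 p
  simp only [Pi.zero_apply, mul_zero, Finset.sum_const_zero] at this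
  exact this

private theorem l3_hom (R : Matrix ι ι ℝ) {p : MvPolynomial ι ℝ} {n : ℕ} (hp : p.IsHomogeneous n) :
    (MvPolynomial.bind₁ (l3_f R) p).IsHomogeneous n := by
  have := hp.aeval (l3_f R) (n := 1) (fun a => ?_)
  · rwa [one_mul] at this
  · unfold l3_f
    refine MvPolynomial.IsHomogeneous.sum _ _ _ fun b _ => ?_
    exact (MvPolynomial.isHomogeneous_X ℝ b).C_mul _

end chain

variable {V : Type} [Fintype V] [DecidableEq V]

private theorem l3_lapM_one (p : MvPolynomial (V × Fin 3) ℝ) :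
    lapM (1 : Matrix V V ℝ) p =
      ∑ a : V × Fin 3, MvPolynomial.pderiv a (MvPolynomial.pderiv a p) := by
  unfold lapM
  simp only [LinearMap.sum_apply, LinearMap.smul_apply, LinearMap.comp_apply, Matrix.one_apply]
  rw [Fintype.sum_prod_type]
  refine Finset.sum_congr rfl fun v _ => ?_
  rw [Finset.sum_eq_single v]
  · rw [if_pos rfl, one_smul]
    rfl
  · intro w _ hw
    rw [if_neg (fun h => hw h.symm), zero_smul]
  · intro h
    exact absurd (mem_univ v) h

private theorem l3_lapM_cov (M : Matrix V V ℝ) (S : Matrix (V × Fin 3) (V × Fin 3) ℝ)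
    (hS : ∀ a b, S a b = if a.2 = b.2 then 2 * M a.1 b.1 else 0) (p : MvPolynomial (V × Fin 3) ℝ) :
    ∑ a, ∑ b, MvPolynomial.C (S a b) * MvPolynomial.pderiv a (MvPolynomial.pderiv b p) =
      (2 : ℝ) • lapM M p := by
  unfold lapM
  simp only [LinearMap.sum_apply, LinearMap.smul_apply, LinearMap.comp_apply]
  rw [Fintype.sum_prod_type, Finset.smul_sum]
  refine Finset.sum_congr rfl fun v _ => ?_
  have e : ∀ i : Fin 3, ∑ b : V × Fin 3, MvPolynomial.C (S (v, i) b) *
      MvPolynomial.pderiv (v, i) (MvPolynomial.pderiv b p) =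
      ∑ w, MvPolynomial.C (2 * M v w) *
        MvPolynomial.pderiv (v, i) (MvPolynomial.pderiv (w, i) p) := by
    intro i
    rw [Fintype.sum_prod_type]
    refine Finset.sum_congr rfl fun w _ => ?_
    rw [Finset.sum_eq_single i]
    · rw [hS, if_pos rfl]
    · intro k _ hk
      rw [hS, if_neg (fun h => hk h.symm), map_zero, zero_mul]
    · intro h
      exact absurd (mem_univ i) h
  simp only [e]
  rw [Finset.sum_comm, Finset.smul_sum]
  refine Finset.sum_congr rfl fun w _ => ?_
  rw [← Finset.mul_sum, smul_smul, MvPolynomial.C_mul']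
  rfl

private theorem l3_iter (M : Matrix V V ℝ) (R S : Matrix (V × Fin 3) (V × Fin 3) ℝ)
    (hR : R * R.transpose = S)
    (hS : ∀ a b, S a b = if a.2 = b.2 then 2 * M a.1 b.1 else 0) (n : ℕ)
    (p : MvPolynomial (V × Fin 3) ℝ) :
    (lapM (1 : Matrix V V ℝ) ^ n) (MvPolynomial.bind₁ (l3_f R) p) =
      MvPolynomial.bind₁ (l3_f R) ((2 : ℝ) ^ n • (lapM M ^ n) p) := by
  induction n generalizing p with
  | zero => simp
  | succ n ih =>
    rw [pow_succ (lapM (1 : Matrix V V ℝ)), Module.End.mul_apply, l3_lapM_one, l3_lap R S hR,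
      l3_lapM_cov M S hS, ih, pow_succ (lapM M), Module.End.mul_apply]
    simp only [map_smul, smul_smul, pow_succ]

open scoped MatrixOrder in
private theorem l3_sqrt {ι : Type} [Fintype ι] [DecidableEq ι] {S : Matrix ι ι ℝ}
    (hS : S.PosSemidef) : ∃ R : Matrix ι ι ℝ, R * R.transpose = S ∧
      ProbabilityTheory.multivariateGaussian 0 S =
        (ProbabilityTheory.stdGaussian (EuclideanSpace ℝ ι)).map
          (fun x => Matrix.toEuclideanCLM (𝕜 := ℝ) R x) := by
  have h0 : (0 : Matrix ι ι ℝ) ≤ S := hS.nonneg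
  have h1 : (CFC.sqrt S).transpose = CFC.sqrt S := by
    have h2 : star (CFC.sqrt S) = CFC.sqrt S := (CFC.sqrt_nonneg S).isSelfAdjoint
    rw [Matrix.star_eq_conjTranspose, Matrix.conjTranspose_eq_transpose_of_trivial] at h2
    exact h2
  refine ⟨CFC.sqrt S, ?_, ?_⟩
  · rw [h1]
    exact CFC.sqrt_mul_sqrt_self S h0
  · unfold ProbabilityTheory.multivariateGaussian
    simp only [zero_add]

theorem wick {D' : OHT.Data V} (hD' : D'.IsSplice) (j : V → ℕ) :
    OHT.moment D' j = MvPolynomial.constantCoeff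
      (((lapM (Matrix.of fun v w => (D'.lk v w : ℝ))) ^ (∑ v, j v)) (∏ v, nsq v ^ j v)) /
        (∑ v, j v).factorial := by
  set M : Matrix V V ℝ := Matrix.of fun v w => (D'.lk v w : ℝ) with hM
  set P : MvPolynomial (V × Fin 3) ℝ := ∏ v, nsq v ^ j v with hP
  set n := ∑ v, j v with hn
  have hpd := OHT.cov_posDef hD'
  obtain ⟨R, hRS, hmap⟩ := l3_sqrt hpd.posSemidef
  have hS : ∀ a b : V × Fin 3, OHT.cov D' a b = if a.2 = b.2 then 2 * M a.1 b.1 else 0 := by
    intro a b
    rfl
  have hPe : ∀ x : V × Fin 3 → ℝ, MvPolynomial.eval x P = ∏ v, (∑ i, x (v, i) ^ 2) ^ j v := by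
    intro x
    rw [hP, map_prod]
    refine Finset.prod_congr rfl fun v _ => ?_
    rw [map_pow]
    congr 1
    unfold OHG.nsq
    simp
  have hPh : P.IsHomogeneous (2 * n) := by
    have e : 2 * n = ∑ v, 2 * j v := by rw [hn, Finset.mul_sum]
    rw [e, hP]
    refine MvPolynomial.IsHomogeneous.prod _ _ _ fun v _ => ?_
    refine MvPolynomial.IsHomogeneous.pow ?_ (j v)
    unfold OHG.nsq
    refine MvPolynomial.IsHomogeneous.sum _ _ _ fun i _ => ?_
    exact MvPolynomial.isHomogeneous_X_pow _ _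
  have hcard : Fintype.card (V × Fin 3) = 3 * Fintype.card V := by
    rw [Fintype.card_prod, Fintype.card_fin, mul_comm]
  have h1 : OHT.moment D' j = ∫ x, MvPolynomial.eval (fun a => x a)
      (MvPolynomial.bind₁ (l3_f R) P) ∂(ProbabilityTheory.stdGaussian
        (EuclideanSpace ℝ (V × Fin 3))) := by
    unfold OHT.moment
    rw [hmap, integral_map (by fun_prop) (by
      refine Continuous.aestronglyMeasurable ?_
      fun_prop)]
    congr 1
    ext x
    rw [l3_eval, hPe]
    have e : ∀ a : V × Fin 3, (Matrix.toEuclideanCLM (𝕜 := ℝ) R x) a = ∑ b, R a b * x b := by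
      intro a
      rw [Matrix.ofLp_toEuclideanCLM]
      rfl
    simp only [e]
  rw [h1, l3_std, hcard, gauss_poly (l3_hom R hPh), l3_iter M R _ hRS hS, l3_const]
  rw [MvPolynomial.constantCoeff_smul, smul_eq_mul]
  have h2 : (2 : ℝ) ^ n ≠ 0 := by positivity
  have h3 : ((n.factorial : ℕ) : ℝ) ≠ 0 := by positivity
  field_simp

end Pool.Agent.SLR
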