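import Pool.Agent.SLR.Defs
import Pool.Agent.OHG.All
import Pool.Agent.OHT.Final

set_option autoImplicit false

open PowerSeries Finset MeasureTheory

namespace Pool.Agent.SLR

open Pool.Agent.OHG Pool.Agent.GPC

variable {V : Type} [Fintype V] [DecidableEq V]

set_option linter.unusedSectionVars false

/-- the substitution `X (v, i) -> ε v X (v, i)` -/
private noncomputable def l4sub (ε : V → ℝ) :
    MvPolynomial (V × Fin 3) ℝ →ₐ[ℝ] MvPolynomial (V × Fin 3) ℝ :=
  MvPolynomial.aeval fun a => MvPolynomial.C (ε a.1) * MvPolynomial.X a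

private lemma l4sub_X (ε : V → ℝ) (a : V × Fin 3) :
    l4sub ε (MvPolynomial.X a) = MvPolynomial.C (ε a.1) * MvPolynomial.X a := by
  unfold l4sub
  exact MvPolynomial.aeval_X _ _

private lemma l4sub_C (ε : V → ℝ) (r : ℝ) :
    l4sub ε (MvPolynomial.C r) = MvPolynomial.C r := by
  unfold l4sub
  exact MvPolynomial.aeval_C _ _

private lemma l4_pd (ε : V → ℝ) (a : V × Fin 3) (p : MvPolynomial (V × Fin 3) ℝ) :
    MvPolynomial.pderiv a (l4sub ε p) = ε a.1 • l4sub ε (MvPolynomial.pderiv a p) := by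
  induction p using MvPolynomial.induction_on with
  | C r => rw [l4sub_C, MvPolynomial.pderiv_C, map_zero, smul_zero]
  | add p q hp hq => rw [map_add, map_add, hp, hq, map_add, map_add, smul_add]
  | mul_X p b hp =>
    have e1 : MvPolynomial.pderiv a (l4sub ε p * (MvPolynomial.C (ε b.1) * MvPolynomial.X b)) =
        l4sub ε p * MvPolynomial.pderiv a (MvPolynomial.C (ε b.1) * MvPolynomial.X b) +
          (MvPolynomial.C (ε b.1) * MvPolynomial.X b) * MvPolynomial.pderiv a (l4sub ε p) :=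
      Derivation.leibniz _ _ _
    have e2 : MvPolynomial.pderiv a (MvPolynomial.C (ε b.1) * MvPolynomial.X b) =
        ε b.1 • MvPolynomial.pderiv a (MvPolynomial.X b) := by
      rw [MvPolynomial.C_mul', Derivation.map_smul]
    have e3 : MvPolynomial.pderiv a (p * MvPolynomial.X b) =
        p * MvPolynomial.pderiv a (MvPolynomial.X b) + MvPolynomial.X b *
          MvPolynomial.pderiv a p := Derivation.leibniz _ _ _
    have e4 : ε b.1 • (MvPolynomial.pderiv a (MvPolynomial.X b) :
        MvPolynomial (V × Fin 3) ℝ) = ε a.1 • l4sub ε (MvPolynomial.pderiv a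
          (MvPolynomial.X b)) := by
      by_cases h : b = a
      · subst h
        rw [MvPolynomial.pderiv_X_self, map_one (l4sub ε)]
      · rw [MvPolynomial.pderiv_X_of_ne h, map_zero (l4sub ε), smul_zero, smul_zero]
    have e5 : l4sub ε (p * MvPolynomial.X b) =
        l4sub ε p * (MvPolynomial.C (ε b.1) * MvPolynomial.X b) := by
      rw [map_mul (l4sub ε), l4sub_X]
    rw [e5, e1, e2, e3, hp, e4, map_add (l4sub ε), map_mul (l4sub ε), map_mul (l4sub ε), l4sub_X,
      smul_add, mul_smul_comm, mul_smul_comm]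

private lemma l4_lap (A : Matrix V V ℝ) (ε : V → ℝ) (hε : ∀ v, ε v ^ 2 = 1) (s : ℝ)
    (p : MvPolynomial (V × Fin 3) ℝ) :
    lapM (Matrix.of fun v w => s * ε v * ε w * A v w) (l4sub ε p) =
      s • l4sub ε (lapM A p) := by
  unfold lapM
  simp only [LinearMap.sum_apply, LinearMap.smul_apply, LinearMap.comp_apply, Matrix.of_apply,
    map_sum, map_smul, Finset.smul_sum]
  refine Finset.sum_congr rfl fun v _ => Finset.sum_congr rfl fun w _ =>
    Finset.sum_congr rfl fun i _ => ?_
  have h1 : MvPolynomial.pderiv (v, i) (MvPolynomial.pderiv (w, i) (l4sub ε p)) =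
      (ε w * ε v) • l4sub ε (MvPolynomial.pderiv (v, i) (MvPolynomial.pderiv (w, i) p)) := by
    rw [l4_pd, Derivation.map_smul, l4_pd, smul_smul]
  show (s * ε v * ε w * A v w) • MvPolynomial.pderiv (v, i)
      (MvPolynomial.pderiv (w, i) (l4sub ε p)) = s • A v w • l4sub ε
        (MvPolynomial.pderiv (v, i) (MvPolynomial.pderiv (w, i) p))
  rw [h1, smul_smul, smul_smul]
  congr 1
  have e1 := hε v
  have e2 := hε w
  calc s * ε v * ε w * A v w * (ε w * ε v) = s * A v w * (ε v ^ 2) * (ε w ^ 2) := by ring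
    _ = s * A v w := by rw [e1, e2]; ring

private lemma l4_pow (A : Matrix V V ℝ) (ε : V → ℝ) (hε : ∀ v, ε v ^ 2 = 1) (s : ℝ) (n : ℕ)
    (p : MvPolynomial (V × Fin 3) ℝ) :
    ((lapM (Matrix.of fun v w => s * ε v * ε w * A v w)) ^ n) (l4sub ε p) =
      s ^ n • l4sub ε (((lapM A) ^ n) p) := by
  induction n with
  | zero => simp
  | succ n ih =>
    have e1 : ∀ (T : MvPolynomial (V × Fin 3) ℝ →ₗ[ℝ] MvPolynomial (V × Fin 3) ℝ)
        (q : MvPolynomial (V × Fin 3) ℝ), (T ^ (n + 1)) q = T ((T ^ n) q) := fun T q => by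
      rw [pow_succ']; rfl
    rw [e1, e1, ih, map_smul, l4_lap A ε hε, smul_smul, pow_succ]

private lemma l4_const (ε : V → ℝ) (p : MvPolynomial (V × Fin 3) ℝ) :
    MvPolynomial.constantCoeff (l4sub ε p) = MvPolynomial.constantCoeff p := by
  have h : (MvPolynomial.constantCoeff.comp (l4sub ε).toRingHom :
      MvPolynomial (V × Fin 3) ℝ →+* ℝ) = MvPolynomial.constantCoeff := by
    apply MvPolynomial.ringHom_ext
    · intro r
      show MvPolynomial.constantCoeff (l4sub ε (MvPolynomial.C r)) = _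
      rw [l4sub_C]
    · intro a
      show MvPolynomial.constantCoeff (l4sub ε (MvPolynomial.X a)) = _
      rw [l4sub_X, map_mul, MvPolynomial.constantCoeff_X, mul_zero]
  exact congrArg (fun f => f p) h

private lemma l4_nsq (ε : V → ℝ) (hε : ∀ v, ε v ^ 2 = 1) (v : V) :
    l4sub ε (nsq v) = nsq v := by
  unfold nsq
  rw [map_sum]
  refine Finset.sum_congr rfl fun i _ => ?_
  rw [map_pow, l4sub_X, mul_pow, ← map_pow, hε, map_one, one_mul]

theorem lapM_sign (A : Matrix V V ℝ) (ε : V → ℝ) (hε : ∀ v, ε v ^ 2 = 1) (s : ℝ) (n : ℕ)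
    (j : V → ℕ) :
    MvPolynomial.constantCoeff (((lapM (Matrix.of fun v w => s * ε v * ε w * A v w)) ^ n)
      (∏ v, nsq v ^ j v)) =
    s ^ n * MvPolynomial.constantCoeff (((lapM A) ^ n) (∏ v, nsq v ^ j v)) := by
  have h1 : l4sub ε (∏ v, nsq v ^ j v) = ∏ v, nsq v ^ j v := by
    rw [map_prod]
    refine Finset.prod_congr rfl fun v _ => ?_
    rw [map_pow, l4_nsq ε hε]
  have h2 := l4_pow A ε hε s n (∏ v, nsq v ^ j v)
  rw [h1] at h2
  rw [h2, MvPolynomial.constantCoeff_smul, l4_const, smul_eq_mul]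

end Pool.Agent.SLR
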