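import Pool.Agent.SLR.Defs
import Pool.Agent.OHG.All
import Pool.Agent.OHT.Final
import Pool.Agent.SLR.L1
import Pool.Agent.SLR.L2
import Pool.Agent.SLR.L3
import Pool.Agent.SLR.L4

set_option autoImplicit false

open PowerSeries Finset MeasureTheory

namespace Pool.Agent.SLR

open Pool.Agent.OHG Pool.Agent.GPC

variable {V : Type} [Fintype V] [DecidableEq V]

private theorem l5_lap (D : Data V) : lapM (lkm D) = OHG.lap D := by
  unfold lapM OHG.lap lkm
  rfl

theorem part_normal {s : ℤ} (hs : s = 1 ∨ s = -1) {P : Prime} (hP : Definite s P) :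
    ∃ D' : OHT.Data (Fin (P.n + 1)), D'.IsSplice ∧ (∀ v w, (D'.lk v w : ℤ) = |P.D.lk v w|) ∧
      OHT.part D' = rescale (s : ℝ) (part P.D) := by
  obtain ⟨ε, hε, hpos⟩ := lk_sign hs hP
  obtain ⟨D', h1, h2, h3, h4⟩ := normal_form hs hP
  refine ⟨D', h1, h4, ?_⟩
  have habs : ∀ v w, (D'.lk v w : ℝ) = (s : ℝ) * (ε v : ℝ) * (ε w : ℝ) * (P.D.lk v w : ℝ) := by
    intro v w
    have e1 : |P.D.lk v w| = s * ε v * ε w * P.D.lk v w := by
      have e2 : |s * ε v * ε w * P.D.lk v w| = |P.D.lk v w| := by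
        rw [abs_mul, abs_mul, abs_mul]
        have a1 : |s| = 1 := by rcases hs with rfl | rfl <;> simp
        have a2 : ∀ v, |ε v| = 1 := fun v => by rcases hε v with h | h <;> rw [h] <;> simp
        rw [a1, a2, a2, one_mul, one_mul, one_mul]
      rw [← e2, abs_of_pos (hpos v w)]
    have e3 := (h4 v w).trans e1
    exact_mod_cast e3
  ext n
  rw [coeff_rescale]
  unfold OHT.part OHG.part
  rw [coeff_mk, coeff_mk, Finset.mul_sum]
  refine Finset.sum_congr rfl fun j hj => ?_
  have hj' : ∑ v, j v = n := (Finset.mem_piAntidiag.1 hj).1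
  have hnode : ∀ v, OHT.node D' v = OHG.node P.D v := by
    intro v
    unfold OHT.node OHG.node
    rw [h2 v, h3 v]
    rfl
  have hmom : OHT.moment D' j = (s : ℝ) ^ n * OHG.moment P.D j := by
    rw [wick h1 j]
    unfold OHG.moment
    have e4 : (Matrix.of fun v w => (D'.lk v w : ℝ)) =
        Matrix.of fun v w => (s : ℝ) * (ε v : ℝ) * (ε w : ℝ) * (lkm P.D) v w := by
      ext v w
      exact habs v w
    rw [e4, lapM_sign (lkm P.D) (fun v => (ε v : ℝ)) (fun v => by
      rcases hε v with h | h <;> rw [h] <;> simp) (s : ℝ), l5_lap, hj', mul_div_assoc]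
  rw [hmom, Finset.prod_congr rfl fun v _ => by rw [hnode v]]
  ring

end Pool.Agent.SLR
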