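import Pool.Agent.SLR.Defs
import Pool.Agent.OHG.All
import Pool.Agent.OHT.Final

set_option autoImplicit false

open PowerSeries Finset MeasureTheory

namespace Pool.Agent.SLR

open Pool.Agent.OHG Pool.Agent.GPC

variable {V : Type} [Fintype V] [DecidableEq V]

private theorem L6_fac (i : ℕ) (hi : 1 ≤ i) (j : ℕ) :
    i.factorial * (j + 1).factorial ≤ (i + j).factorial := by
  induction j with
  | zero => simp
  | succ j ih =>
    have h1 : (j + 1 + 1).factorial = (j + 2) * (j + 1).factorial := Nat.factorial_succ (j + 1)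
    have h2 : (i + (j + 1)).factorial = (i + j + 1) * (i + j).factorial :=
      Nat.factorial_succ (i + j)
    rw [h1, h2]
    calc i.factorial * ((j + 2) * (j + 1).factorial)
        = (j + 2) * (i.factorial * (j + 1).factorial) := by ring
      _ ≤ (i + j + 1) * (i + j).factorial := Nat.mul_le_mul (by omega) ih

private theorem L6_term (k i j : ℕ) (h : i + j = k) :
    i.factorial * j.factorial ≤ (k - 1).factorial +
      ((if i = 0 then k.factorial else 0) + (if j = 0 then k.factorial else 0)) := by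
  rcases Nat.eq_zero_or_pos i with hi | hi
  · subst hi
    have : j = k := by omega
    subst this
    simp only [Nat.factorial_zero, one_mul, if_true]
    omega
  · rcases Nat.eq_zero_or_pos j with hj | hj
    · subst hj
      have : i = k := by omega
      subst this
      simp only [Nat.factorial_zero, mul_one, if_true]
      omega
    · obtain ⟨j', rfl⟩ : ∃ j', j = j' + 1 := ⟨j - 1, by omega⟩
      have h1 := L6_fac i hi j'
      have h2 : k - 1 = i + j' := by omega
      rw [h2]
      omega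

private theorem L6_sum (k : ℕ) :
    ∑ p ∈ antidiagonal k, p.1.factorial * p.2.factorial ≤ 4 * k.factorial := by
  have h1 : ∑ p ∈ antidiagonal k, p.1.factorial * p.2.factorial ≤
      ∑ p ∈ antidiagonal k, ((k - 1).factorial +
      ((if p.1 = 0 then k.factorial else 0) + (if p.2 = 0 then k.factorial else 0))) :=
    Finset.sum_le_sum fun p hp => L6_term k p.1 p.2 (mem_antidiagonal.mp hp)
  have h2 : ∑ p ∈ antidiagonal k, (if p.1 = 0 then k.factorial else 0) = k.factorial := by
    rw [Finset.sum_eq_single (0, k)]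
    · simp
    · intro p hp hne
      rw [if_neg]
      intro h0
      have := mem_antidiagonal.mp hp
      exact hne (Prod.ext h0 (by simp only; omega))
    · intro h0
      exact absurd (HasAntidiagonal.mem_antidiagonal.mpr (by simp)) h0
  have h3 : ∑ p ∈ antidiagonal k, (if p.2 = 0 then k.factorial else 0) = k.factorial := by
    rw [Finset.sum_eq_single (k, 0)]
    · simp
    · intro p hp hne
      rw [if_neg]
      intro h0
      have := mem_antidiagonal.mp hp
      exact hne (Prod.ext (by simp only; omega) h0)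
    · intro h0
      exact absurd (HasAntidiagonal.mem_antidiagonal.mpr (by simp)) h0
  rw [Finset.sum_add_distrib, Finset.sum_add_distrib, h2, h3, Finset.sum_const,
    Nat.card_antidiagonal, smul_eq_mul] at h1
  rcases Nat.eq_zero_or_pos k with hk | hk
  · subst hk
    simp
  · obtain ⟨m, rfl⟩ : ∃ m, k = m + 1 := ⟨k - 1, by omega⟩
    have h4 : (m + 1).factorial = (m + 1) * m.factorial := Nat.factorial_succ m
    have h5 : (m + 1 + 1) * (m + 1 - 1).factorial ≤ 2 * (m + 1).factorial := by
      rw [Nat.add_sub_cancel, h4, ← mul_assoc]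
      exact Nat.mul_le_mul_right _ (by omega)
    omega

private theorem L6_gev {ρ : ℝ} (hρ : 0 < ρ) {f g : ℝ⟦X⟧} (hf : OHT.Gev ρ f) (hg : OHT.Gev ρ g) :
    OHT.Gev ρ (f * g) := by
  obtain ⟨C, hC⟩ := hf
  obtain ⟨C', hC'⟩ := hg
  refine ⟨4 * (C * C'), fun k => ?_⟩
  rw [coeff_mul]
  have hC0 : 0 ≤ C := by
    have := hC 0
    simp only [Nat.factorial_zero, Nat.cast_one, mul_one, pow_zero] at this
    exact (abs_nonneg _).trans this
  have hC0' : 0 ≤ C' := by
    have := hC' 0
    simp only [Nat.factorial_zero, Nat.cast_one, mul_one, pow_zero] at this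
    exact (abs_nonneg _).trans this
  calc |∑ p ∈ antidiagonal k, coeff p.1 f * coeff p.2 g|
      ≤ ∑ p ∈ antidiagonal k, |coeff p.1 f * coeff p.2 g| := Finset.abs_sum_le_sum_abs _ _
    _ ≤ ∑ p ∈ antidiagonal k, C * C' * ρ ^ k * ((p.1.factorial * p.2.factorial : ℕ) : ℝ) := by
        refine Finset.sum_le_sum fun p hp => ?_
        have hk := mem_antidiagonal.mp hp
        rw [abs_mul]
        have h1 := hC p.1
        have h2 := hC' p.2
        calc |coeff p.1 f| * |coeff p.2 g| ≤
            (C * p.1.factorial * ρ ^ p.1) * (C' * p.2.factorial * ρ ^ p.2) :=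
              mul_le_mul h1 h2 (abs_nonneg _) (by positivity)
          _ = C * C' * ρ ^ k * ((p.1.factorial * p.2.factorial : ℕ) : ℝ) := by
              rw [← hk, pow_add]; push_cast; ring
    _ = C * C' * ρ ^ k * ((∑ p ∈ antidiagonal k, p.1.factorial * p.2.factorial : ℕ) : ℝ) := by
        rw [← Finset.mul_sum]; push_cast; rfl
    _ ≤ C * C' * ρ ^ k * ((4 * k.factorial : ℕ) : ℝ) := by
        refine mul_le_mul_of_nonneg_left ?_ (by positivity)
        exact_mod_cast L6_sum k
    _ = 4 * (C * C') * k.factorial * ρ ^ k := by push_cast; ring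

private theorem L6_signs {f g : ℝ⟦X⟧} (k : ℕ) : (-1) ^ k * coeff k (f * g) =
    ∑ p ∈ antidiagonal k, ((-1) ^ p.1 * coeff p.1 f) * ((-1) ^ p.2 * coeff p.2 g) := by
  rw [coeff_mul, Finset.mul_sum]
  refine Finset.sum_congr rfl fun p hp => ?_
  have hk := mem_antidiagonal.mp hp
  rw [← hk, pow_add]
  ring

private theorem L6_abs (k : ℕ) (x : ℝ) (h : 0 ≤ (-1) ^ k * x) : |x| = (-1) ^ k * x := by
  rw [← abs_of_nonneg h, abs_mul, abs_pow, abs_neg, abs_one, one_pow, one_mul]

private theorem L6_low {ρ : ℝ} {f g : ℝ⟦X⟧} (hf : ∀ k, 0 ≤ (-1) ^ k * coeff k f)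
    (hg : ∀ k, 0 ≤ (-1) ^ k * coeff k g) (hg0 : coeff 0 g = 1) (h : OHT.Gev ρ (f * g)) :
    OHT.Gev ρ f := by
  obtain ⟨C, hC⟩ := h
  refine ⟨C, fun k => le_trans ?_ (hC k)⟩
  have h0 : ∀ p ∈ antidiagonal k, 0 ≤ ((-1) ^ p.1 * coeff p.1 f) * ((-1) ^ p.2 * coeff p.2 g) :=
    fun p _ => mul_nonneg (hf _) (hg _)
  have h1 := Finset.single_le_sum h0 (a := (k, 0)) (mem_antidiagonal.mpr (by simp))
  rw [← L6_signs] at h1
  simp only [pow_zero, hg0, mul_one] at h1
  rw [L6_abs k _ (hf k), L6_abs k (coeff k (f * g)) ((hf k).trans h1)]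
  exact h1

theorem Growth.mul {T T' : ℝ} {f g : ℝ⟦X⟧} (hT : 0 ≤ T) (hT' : 0 ≤ T') (hf : Growth T f)
    (hg : Growth T' g) : Growth (max T T') (f * g) := by
  refine ⟨fun ρ hρ => ?_, fun ρ hρ0 hρ => ?_, fun k => ?_, ?_⟩
  · have h1 : T < ρ := (le_max_left _ _).trans_lt hρ
    have h2 : T' < ρ := (le_max_right _ _).trans_lt hρ
    exact L6_gev (hT.trans_lt h1) (hf.up ρ h1) (hg.up ρ h2)
  · intro h
    rcases lt_max_iff.mp hρ with h1 | h1
    · exact hf.low ρ hρ0 h1 (L6_low hf.sign hg.sign hg.one h)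
    · rw [mul_comm] at h
      exact hg.low ρ hρ0 h1 (L6_low hg.sign hf.sign hf.one h)
  · rw [L6_signs]
    exact Finset.sum_nonneg fun p _ => mul_nonneg (hf.sign _) (hg.sign _)
  · rw [coeff_mul]
    simp [hf.one, hg.one]

theorem growth_one : Growth 0 1 := by
  refine ⟨fun ρ hρ => ⟨1, fun k => ?_⟩, fun ρ h1 h2 => absurd (h1.trans h2) (lt_irrefl _),
    fun k => ?_, ?_⟩
  · rw [coeff_one]
    split_ifs with h
    · subst h; simp
    · rw [abs_zero]; positivity
  · rw [coeff_one]
    split_ifs with h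
    · subst h; simp
    · simp
  · simp

end Pool.Agent.SLR
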