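import Pool.Agent.SLR.Defs
import Pool.Agent.OHG.All
import Pool.Agent.OHT.Final
import Pool.Agent.GPC.Z1
import Pool.Agent.SLR.L5
import Pool.Agent.SLR.L6

set_option autoImplicit false

open PowerSeries Finset MeasureTheory

namespace Pool.Agent.SLR

open Pool.Agent.OHG Pool.Agent.GPC

variable {V : Type} [Fintype V] [DecidableEq V]

private theorem l7_rexp_ne (a : ℝ) : rescale a (exp ℝ) ≠ 0 := by
  intro h
  have h1 := congrArg (coeff 0) h
  simp [coeff_rescale, coeff_exp] at h1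

private theorem l7_sinh_mul_inv : sinhcHalf * sinhcHalf⁻¹ = 1 := by
  apply PowerSeries.mul_inv_cancel
  unfold sinhcHalf
  rw [← coeff_zero_eq_constantCoeff_apply, coeff_mk]
  simp

private theorem l7_sinh_ne : (sinhcHalf⁻¹ : ℝ⟦X⟧) ≠ 0 := by
  intro h
  have h1 := l7_sinh_mul_inv
  rw [h, mul_zero] at h1
  exact zero_ne_one h1

private theorem l7_sinhc_zero (k : ℕ) : constantCoeff (OHT.sinhc k) = 1 := by
  rw [← coeff_zero_eq_constantCoeff_apply, OHT.sinhc, coeff_mk]
  simp

private theorem l7_node_zero (D : OHT.Data V) (v : V) : coeff 0 (OHT.node D v) = 1 := by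
  rw [coeff_zero_eq_constantCoeff_apply, OHT.node, map_mul, map_prod, map_pow,
    PowerSeries.constantCoeff_inv]
  simp [l7_sinhc_zero]

private theorem l7_part_zero (D : OHT.Data V) : coeff 0 (OHT.part D) = 1 := by
  rw [OHT.part, coeff_mk, Finset.piAntidiag_zero, Finset.sum_singleton]
  simp [l7_node_zero, OHT.moment]

/-- The growth of a single member. -/
private theorem l7_single {s : ℤ} (hs : s = 1 ∨ s = -1) {P : Prime} (hP : Definite s P) :
    ∃ T : ℕ, Growth ((T : ℝ) / Real.pi ^ 2) (rescale (s : ℝ) (part P.D)) ∧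
      (∀ v, |P.D.lk v v| ≤ T) ∧ ∃ v, |P.D.lk v v| = T := by
  obtain ⟨D', hD', hlk, hpart⟩ := part_normal hs hP
  refine ⟨OHT.top D', ?_, ?_, ?_⟩
  · rw [← hpart]
    refine ⟨fun ρ hρ => OHT.part_gev hD' hρ, fun ρ h0 hρ => OHT.part_not_gev hD' h0 hρ,
      OHT.part_sign hD', ?_⟩
    exact l7_part_zero D'
  · intro v
    rw [← hlk]
    exact_mod_cast Finset.le_sup (f := fun v => D'.lk v v) (mem_univ v)
  · obtain ⟨v, -, hv⟩ := Finset.exists_mem_eq_sup (univ : Finset (Fin (P.n + 1)))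
      univ_nonempty (fun v => D'.lk v v)
    refine ⟨v, ?_⟩
    rw [← hlk, OHT.top, hv]

private theorem l7_multi {s : ℤ} (hs : s = 1 ∨ s = -1) (M : Multiset Prime) :
    (∀ P ∈ M, Definite s P) →
    ∃ T : ℕ, Growth ((T : ℝ) / Real.pi ^ 2)
        (M.map fun P => rescale (s : ℝ) (part P.D)).prod ∧
      (∀ P ∈ M, ∀ v, |P.D.lk v v| ≤ T) ∧ (M = 0 → T = 0) ∧
      (M ≠ 0 → ∃ P ∈ M, ∃ v, |P.D.lk v v| = T) := by
  induction M using Multiset.induction with
  | empty =>
    intro _
    refine ⟨0, ?_, by simp, fun _ => rfl, fun h => (h rfl).elim⟩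
    simpa using growth_one
  | cons P M ih =>
    intro hM
    obtain ⟨T, hT1, hT2, hT3, hT4⟩ := ih fun Q hQ => hM Q (Multiset.mem_cons_of_mem hQ)
    obtain ⟨U, hU1, hU2, v, hv⟩ := l7_single hs (hM P (Multiset.mem_cons_self P M))
    refine ⟨max U T, ?_, ?_, ?_, ?_⟩
    · rw [Multiset.map_cons, Multiset.prod_cons]
      have h := Growth.mul (by positivity) (by positivity) hU1 hT1
      have e : max ((U : ℝ) / Real.pi ^ 2) ((T : ℝ) / Real.pi ^ 2) =
          ((max U T : ℕ) : ℝ) / Real.pi ^ 2 := by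
        rw [Nat.cast_max]
        exact max_div_div_right (by positivity) _ _
      rwa [e] at h
    · intro Q hQ w
      rcases Multiset.mem_cons.mp hQ with rfl | hQ
      · exact (hU2 w).trans (by exact_mod_cast le_max_left _ _)
      · exact (hT2 Q hQ w).trans (by exact_mod_cast le_max_right _ _)
    · intro h
      exact absurd h (Multiset.cons_ne_zero)
    · intro _
      rcases le_or_gt T U with h | h
      · refine ⟨P, Multiset.mem_cons_self P M, v, ?_⟩
        rw [max_eq_left h, hv]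
      · have hM0 : M ≠ 0 := by
          intro h0
          rw [hT3 h0] at h
          exact absurd h (Nat.not_lt_zero _)
        obtain ⟨Q, hQ, w, hw⟩ := hT4 hM0
        refine ⟨Q, Multiset.mem_cons_of_mem hQ, w, ?_⟩
        rw [max_eq_right h.le, hw]

private theorem l7_growth_unique {T T' : ℝ} {f : ℝ⟦X⟧} (hT : 0 ≤ T) (h : Growth T f)
    (h' : Growth T' f) : T' ≤ T := by
  by_contra hlt
  push Not at hlt
  have h1 : T < (T + T') / 2 := by linarith
  have h2 : (T + T') / 2 < T' := by linarith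
  exact h'.low _ (by linarith) h2 (h.up _ h1)

theorem max_le {s : ℤ} (hs : s = 1 ∨ s = -1) {κ κ' : ℝ} {M M' : Multiset Prime}
    (h : series κ M = series κ' M') (hd : ∀ P ∈ M, Definite s P) (hd' : ∀ P ∈ M', Definite s P)
    {C : ℤ} (hC : ∀ P ∈ M, ∀ v, |P.D.lk v v| ≤ C) : ∀ P ∈ M', ∀ v, |P.D.lk v v| ≤ C := by
  obtain ⟨hcard, -, hκ⟩ := pieces κ κ' M M' h
  subst hκ
  have h1 : (M.map fun P => sinhcHalf⁻¹ * part P.D).prod =
      (M'.map fun P => sinhcHalf⁻¹ * part P.D).prod :=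
    mul_left_cancel₀ (l7_rexp_ne κ) h
  rw [Multiset.prod_map_mul, Multiset.prod_map_mul, Multiset.map_const', Multiset.map_const',
    Multiset.prod_replicate, Multiset.prod_replicate, ← hcard] at h1
  have h2 : (M.map fun P => part P.D).prod = (M'.map fun P => part P.D).prod :=
    mul_left_cancel₀ (pow_ne_zero _ l7_sinh_ne) h1
  have h3 : (M.map fun P => rescale (s : ℝ) (part P.D)).prod =
      (M'.map fun P => rescale (s : ℝ) (part P.D)).prod := by
    have h4 := congrArg (rescale (s : ℝ)) h2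
    rw [map_multiset_prod, map_multiset_prod, Multiset.map_map, Multiset.map_map] at h4
    exact h4
  obtain ⟨T, hT1, hT2, hT3, hT4⟩ := l7_multi hs M hd
  obtain ⟨T', hT1', hT2', hT3', hT4'⟩ := l7_multi hs M' hd'
  rw [← h3] at hT1'
  have h5 : ((T' : ℝ)) / Real.pi ^ 2 ≤ (T : ℝ) / Real.pi ^ 2 :=
    l7_growth_unique (by positivity) hT1 hT1'
  have h6 : (T' : ℝ) ≤ T := by
    rwa [div_le_div_iff_of_pos_right (by positivity)] at h5
  have h7 : T' ≤ T := by exact_mod_cast h6
  intro P hP v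
  have hM' : M' ≠ 0 := fun h0 => by simp [h0] at hP
  have hM : M ≠ 0 := by
    intro h0
    apply hM'
    rw [← Multiset.card_eq_zero, ← hcard, h0, Multiset.card_zero]
  obtain ⟨Q, hQ, w, hw⟩ := hT4 hM
  calc |P.D.lk v v| ≤ (T' : ℤ) := hT2' P hP v
    _ ≤ T := by exact_mod_cast h7
    _ = |Q.D.lk w w| := hw.symm
    _ ≤ C := hC Q hQ w

end Pool.Agent.SLR
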