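import Pool.Agent.SLR.M14
import Pool.Agent.SLR.L7

/-!
# The Ohtsuki series recognises the links of surface singularities
-/

set_option autoImplicit false

open PowerSeries Finset

namespace Pool.Agent.SLR

open Pool.Agent.OHG Pool.Agent.GPC

/-- Definiteness and the largest `|ℓ_vv|` are determined by the Ohtsuki series. -/
theorem recognised {s : ℤ} (hs : s = 1 ∨ s = -1) {κ κ' : ℝ} {M M' : Multiset Prime}
    (h : series κ M = series κ' M') (hM : ∀ P ∈ M, Definite s P) :
    (∀ P ∈ M', Definite s P) ∧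
      ∀ C : ℤ, (∀ P ∈ M, ∀ v, |P.D.lk v v| ≤ C) ↔ ∀ P ∈ M', ∀ v, |P.D.lk v v| ≤ C := by
  have hM' := definite_mem hs h hM
  exact ⟨hM', fun C => ⟨fun hC => max_le hs h hM hM' hC, fun hC => max_le hs h.symm hM' hM hC⟩⟩

end Pool.Agent.SLR
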