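import Pool.Agent.SLR.Defs
import Pool.Agent.OHG.All
import Pool.Agent.OHT.Final
import Pool.Agent.GPC.F0

set_option autoImplicit false

open PowerSeries Finset MeasureTheory

namespace Pool.Agent.SLR

open Pool.Agent.OHG Pool.Agent.GPC

variable {V : Type} [Fintype V] [DecidableEq V]

private lemma m6_sum (u : V → ℝ) (X : V × Fin 3 → ℝ) :
    ∑ v, u v * ∑ i, X (v, i) ^ 2 = ∑ a : V × Fin 3, u a.1 * X a ^ 2 := by
  rw [Fintype.sum_prod_type]
  refine Finset.sum_congr rfl fun v _ => ?_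
  rw [Finset.mul_sum]

private lemma m6_exp (u : V → ℝ) (X : V × Fin 3 → ℝ) :
    Real.exp (-(∑ v, u v * ∑ i, X (v, i) ^ 2)) = ∏ a : V × Fin 3, Real.exp (-(u a.1) * X a ^ 2) := by
  rw [m6_sum, ← Finset.sum_neg_distrib, Real.exp_sum]
  refine Finset.prod_congr rfl fun a _ => ?_
  congr 1
  ring

private lemma m6_gint (u : V → ℝ) (hu : ∀ v, 0 < u v) :
    Integrable fun X : V × Fin 3 → ℝ => Real.exp (-(∑ v, u v * ∑ i, X (v, i) ^ 2)) := by
  simp only [m6_exp]
  exact Integrable.fintype_prod (f := fun (a : V × Fin 3) (x : ℝ) => Real.exp (-(u a.1) * x ^ 2))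
    fun a => integrable_exp_neg_mul_sq (hu a.1)

private lemma m6_sqrt {x : ℝ} (hx : 0 < x) :
    Real.sqrt (Real.pi / x) ^ 3 = Real.sqrt Real.pi ^ 3 * x ^ (-(3 / 2 : ℝ)) := by
  rw [Real.sqrt_div Real.pi_pos.le, div_pow, div_eq_mul_inv]
  congr 1
  rw [Real.sqrt_eq_rpow, ← Real.rpow_natCast, ← Real.rpow_mul hx.le, ← Real.rpow_neg hx.le]
  norm_num

private lemma m6_gval (u : V → ℝ) (hu : ∀ v, 0 < u v) :
    ∫ X : V × Fin 3 → ℝ, Real.exp (-(∑ v, u v * ∑ i, X (v, i) ^ 2)) =
      (Real.sqrt Real.pi ^ 3) ^ Fintype.card V * ∏ v, (u v) ^ (-(3 / 2 : ℝ)) := by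
  simp only [m6_exp]
  rw [integral_fintype_prod_volume_eq_prod
    (fun (a : V × Fin 3) (x : ℝ) => Real.exp (-(u a.1) * x ^ 2))]
  simp only [integral_gaussian]
  rw [Fintype.prod_prod_type]
  simp only [Finset.prod_const, Finset.card_univ, Fintype.card_fin]
  rw [Finset.prod_congr rfl fun v _ => m6_sqrt (hu v), Finset.prod_mul_distrib]
  simp

private lemma m6_meas : MeasurableSet {u : V → ℝ | ∀ v, 0 < u v} := by
  have : {u : V → ℝ | ∀ v, 0 < u v} = ⋂ v, {u : V → ℝ | 0 < u v} := by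
    ext u
    simp
  rw [this]
  exact MeasurableSet.iInter fun v => measurableSet_lt measurable_const (measurable_pi_apply v)

private noncomputable def m6G (θ : V → ℝ → ℝ) (u : V → ℝ) (X : V × Fin 3 → ℝ) : ℝ :=
  (∏ v, θ v (u v)) * Real.exp (-(∑ v, u v * ∑ i, X (v, i) ^ 2))

private lemma m6_cont {θ : V → ℝ → ℝ} {φ : V → ℝ⟦X⟧} (hθ : ∀ v, Theta (θ v) (φ v)) :
    Continuous (Function.uncurry (m6G θ)) := by
  unfold m6G Function.uncurry
  refine Continuous.mul ?_ ?_
  · exact continuous_finsetProd _ fun v _ => (hθ v).cont.comp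
      ((continuous_apply v).comp continuous_fst)
  · refine Real.continuous_exp.comp (Continuous.neg ?_)
    refine continuous_finsetSum _ fun v _ => ?_
    refine Continuous.mul ((continuous_apply v).comp continuous_fst) ?_
    exact continuous_finsetSum _ fun i _ => ((continuous_apply (v, i)).comp continuous_snd).pow 2

private lemma m6_int {θ : V → ℝ → ℝ} {φ : V → ℝ⟦X⟧} (hθ : ∀ v, Theta (θ v) (φ v)) :
    Integrable (Function.uncurry (m6G θ))
      ((volume.restrict {u : V → ℝ | ∀ v, 0 < u v}).prod volume) := by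
  rw [integrable_prod_iff (m6_cont hθ).aestronglyMeasurable]
  constructor
  · filter_upwards [self_mem_ae_restrict m6_meas] with u hu
    exact (m6_gint u hu).const_mul (∏ v, θ v (u v))
  · have h1 := theta_integrable hθ 0 (3 / 2)
    have h2 : IntegrableOn (fun u : V → ℝ => (Real.sqrt Real.pi ^ 3) ^ Fintype.card V *
        ((∏ v, |θ v (u v)|) * (1 + ∑ v, u v) ^ 0 * ∏ v, (u v) ^ (-(3 / 2 : ℝ))))
        {u : V → ℝ | ∀ v, 0 < u v} := h1.const_mul _
    refine h2.congr ?_
    filter_upwards [self_mem_ae_restrict m6_meas] with u hu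
    simp only [Function.uncurry, m6G, norm_mul, Real.norm_eq_abs, Real.abs_exp]
    rw [integral_const_mul, m6_gval u hu, Finset.abs_prod]
    ring

private lemma m6_dens (θ : V → ℝ → ℝ) (X : V × Fin 3 → ℝ) :
    dens θ X = ∫ u in {u : V → ℝ | ∀ v, 0 < u v}, m6G θ u X := by
  unfold dens lapl
  rw [← pos_prod (fun v x => Real.exp (-(x * ∑ i, X (v, i) ^ 2)) * θ v x)]
  refine integral_congr_ae (Filter.Eventually.of_forall fun u => ?_)
  simp only [m6G]
  rw [Finset.prod_mul_distrib, mul_comm, ← Real.exp_sum, Finset.sum_neg_distrib]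

theorem dens_integrable {θ : V → ℝ → ℝ} {φ : V → ℝ⟦X⟧} (hθ : ∀ v, Theta (θ v) (φ v)) :
    Integrable (dens θ) := by
  have h := (m6_int hθ).integral_prod_right
  refine h.congr (Filter.Eventually.of_forall fun X => ?_)
  simp only [Function.uncurry]
  exact (m6_dens θ X).symm

theorem dens_fubini {θ : V → ℝ → ℝ} {φ : V → ℝ⟦X⟧} (hθ : ∀ v, Theta (θ v) (φ v))
    (g : (V × Fin 3 → ℝ) → ℝ) (hg : Continuous g) :
    ∫ u in {u : V → ℝ | ∀ v, 0 < u v}, ((∏ v, θ v (u v) : ℝ) : ℂ) *
      ∫ X : V × Fin 3 → ℝ, Complex.exp (-((∑ v, u v * ∑ i, X (v, i) ^ 2 : ℝ) : ℂ) +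
        Complex.I * ((g X : ℝ) : ℂ)) =
    ∫ X : V × Fin 3 → ℝ, ((dens θ X : ℝ) : ℂ) * Complex.exp (Complex.I * ((g X : ℝ) : ℂ)) := by
  have hI : Integrable (Function.uncurry fun (u : V → ℝ) (X : V × Fin 3 → ℝ) =>
      ((m6G θ u X : ℝ) : ℂ) * Complex.exp (Complex.I * ((g X : ℝ) : ℂ)))
      ((volume.restrict {u : V → ℝ | ∀ v, 0 < u v}).prod volume) := by
    refine Integrable.mono' (m6_int hθ).norm ?_ (Filter.Eventually.of_forall fun p => ?_)
    · refine Continuous.aestronglyMeasurable ?_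
      refine Continuous.mul (Complex.continuous_ofReal.comp (m6_cont hθ)) ?_
      exact Complex.continuous_exp.comp (continuous_const.mul
        (Complex.continuous_ofReal.comp (hg.comp continuous_snd)))
    · simp only [Function.uncurry, norm_mul, Complex.norm_real]
      rw [mul_comm Complex.I, Complex.norm_exp_ofReal_mul_I, mul_one]
  have h := integral_integral_swap hI
  calc _ = ∫ u in {u : V → ℝ | ∀ v, 0 < u v}, ∫ X : V × Fin 3 → ℝ,
        ((m6G θ u X : ℝ) : ℂ) * Complex.exp (Complex.I * ((g X : ℝ) : ℂ)) := by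
        refine integral_congr_ae (Filter.Eventually.of_forall fun u => ?_)
        simp only
        rw [← integral_const_mul]
        refine integral_congr_ae (Filter.Eventually.of_forall fun X => ?_)
        simp only [m6G]
        rw [Complex.exp_add]
        push_cast
        ring
    _ = _ := h
    _ = _ := by
        refine integral_congr_ae (Filter.Eventually.of_forall fun X => ?_)
        simp only
        rw [integral_mul_const, integral_complex_ofReal, ← m6_dens]

end Pool.Agent.SLR
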