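import Pool.Agent.SLR.Defs
import Pool.Agent.OHG.All
import Pool.Agent.OHT.Final

set_option autoImplicit false

open PowerSeries Finset MeasureTheory

namespace Pool.Agent.SLR

open Pool.Agent.OHG Pool.Agent.GPC

variable {V : Type} [Fintype V] [DecidableEq V]

theorem qf_eq_qd (A : Matrix V V ℝ) (X : V × Fin 3 → ℝ) :
    qf A X = ∑ i : Fin 3, qd A fun v => X (v, i) := by
  unfold qf qd
  rw [Finset.sum_comm]
  conv_rhs => rw [Finset.sum_comm]
  rw [Finset.sum_comm]
  refine Finset.sum_congr rfl (fun v _ => ?_)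
  rw [Finset.sum_comm]
  refine Finset.sum_congr rfl (fun w _ => ?_)
  rw [Finset.mul_sum]
  refine Finset.sum_congr rfl (fun i _ => ?_)
  ring

private theorem M7_cont (A : Matrix V V ℝ) : Continuous (qf A) := by
  unfold qf
  fun_prop

private theorem M7_map (A : Matrix V V ℝ) (f : (V × Fin 3 → ℝ) → ℝ) (s K : ℝ) :
    ((volume.withDensity fun X => ENNReal.ofReal (f X)).map (qf A)) {y | s * y < K} =
      (volume.withDensity fun X => ENNReal.ofReal (f X)) {X | s * qf A X < K} := by
  rw [Measure.map_apply (M7_cont A).measurable]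
  · rfl
  · exact measurableSet_lt (measurable_const.mul measurable_id) measurable_const

theorem law_pos {A : Matrix V V ℝ} {f : (V × Fin 3 → ℝ) → ℝ} (hf : Integrable f)
    (hf0 : ∀ X, 0 < f X) {s : ℝ} (hs : ∃ x, s * qd A x < 0) (K : ℝ) :
    ((volume.withDensity fun X => ENNReal.ofReal (f X)).map (qf A)) {y | s * y < -K} ≠ 0 := by
  rw [M7_map]
  intro h0
  have hfm : AEMeasurable (fun X => ENNReal.ofReal (f X)) (volume : Measure (V × Fin 3 → ℝ)) :=
    hf.aestronglyMeasurable.aemeasurable.ennreal_ofReal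
  rw [withDensity_apply_eq_zero' hfm] at h0
  have huniv : {X : V × Fin 3 → ℝ | ENNReal.ofReal (f X) ≠ 0} = Set.univ := by
    ext X
    simp only [Set.mem_setOf_eq, Set.mem_univ, iff_true]
    rw [Ne, ENNReal.ofReal_eq_zero, not_le]
    exact hf0 X
  rw [huniv, Set.univ_inter] at h0
  have hopen : IsOpen {X : V × Fin 3 → ℝ | s * qf A X < -K} :=
    isOpen_lt (continuous_const.mul (M7_cont A)) continuous_const
  obtain ⟨x, hx⟩ := hs
  set q : ℝ := s * qd A x with hq
  have hne : ({X : V × Fin 3 → ℝ | s * qf A X < -K}).Nonempty := by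
    set R : ℝ := |K| / (-q) + 1 with hR
    have hq0 : 0 < -q := by linarith
    have hR1 : 1 ≤ R := by
      have : 0 ≤ |K| / (-q) := by positivity
      linarith
    refine ⟨fun a => if a.2 = 0 then R * x a.1 else 0, ?_⟩
    simp only [Set.mem_setOf_eq]
    rw [qf_eq_qd]
    have h1 : qd A (fun v => if (0 : Fin 3) = 0 then R * x v else 0) = R ^ 2 * qd A x := by
      unfold qd
      rw [Finset.mul_sum]
      refine Finset.sum_congr rfl (fun v _ => ?_)
      rw [Finset.mul_sum]
      refine Finset.sum_congr rfl (fun w _ => ?_)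
      simp only [if_true]
      ring
    have h2 : ∀ i : Fin 3, i ≠ 0 → qd A (fun v => if i = 0 then R * x v else 0) = 0 := by
      intro i hi
      unfold qd
      simp [hi]
    have h3 : ∑ i : Fin 3, qd A (fun v => if i = 0 then R * x v else 0) = R ^ 2 * qd A x := by
      rw [Fin.sum_univ_three, h1, h2 1 (by decide), h2 2 (by decide)]
      ring
    rw [h3]
    have h4 : s * (R ^ 2 * qd A x) = R ^ 2 * q := by rw [hq]; ring
    rw [h4]
    have h5 : R * q < -|K| := by
      rw [hR, add_mul, one_mul, div_mul_eq_mul_div]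
      have hq1 : q ≠ 0 := by
        intro h9
        rw [h9] at hq0
        simp at hq0
      have h6 : |K| * q / -q = -|K| := by
        rw [div_neg, mul_div_assoc, div_self hq1, mul_one]
      rw [h6]
      linarith
    have h7 : R ^ 2 * q ≤ R * q := by
      have h10 : 0 ≤ (R * (R - 1)) * (-q) := by
        have : 0 ≤ R - 1 := by linarith
        positivity
      nlinarith
    have h8 : -|K| ≤ -K := by
      have := le_abs_self K
      linarith
    linarith
  exact (hopen.measure_pos volume hne).ne' h0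

theorem law_null {A : Matrix V V ℝ} {f : (V × Fin 3 → ℝ) → ℝ} (hf : Integrable f)
    {s : ℝ} (hs : ∀ x, 0 ≤ s * qd A x) :
    ((volume.withDensity fun X => ENNReal.ofReal (f X)).map (qf A)) {y | s * y < 0} = 0 := by
  rw [M7_map]
  have h1 : {X : V × Fin 3 → ℝ | s * qf A X < 0} = ∅ := by
    ext X
    simp only [Set.mem_setOf_eq, Set.mem_empty_iff_false, iff_false, not_lt]
    rw [qf_eq_qd, Finset.mul_sum]
    exact Finset.sum_nonneg (fun i _ => hs _)
  rw [h1, measure_empty]

end Pool.Agent.SLR
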