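import Pool.Agent.SLR.Defs
import Pool.Agent.OHG.All
import Pool.Agent.OHT.Final
import Pool.Agent.GPC.K6d
import Pool.Agent.GPC.K8
import Pool.Agent.GPC.F3
import Pool.Agent.GPC.N2
import Pool.Agent.SLR.M4
import Pool.Agent.SLR.M5
import Pool.Agent.SLR.M6
import Pool.Agent.SLR.M7

set_option autoImplicit false

open PowerSeries Finset MeasureTheory

namespace Pool.Agent.SLR

open Pool.Agent.OHG Pool.Agent.GPC

variable {V : Type} [Fintype V] [DecidableEq V]

private theorem m8_herm {D : Data V} (h : D.IsGraph) : (lkm D).IsHermitian := by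
  ext v w
  rw [Matrix.conjTranspose_apply, star_trivial]
  unfold lkm
  rw [Matrix.of_apply, Matrix.of_apply, lk_comm]

private theorem m8_cont (A : Matrix V V ℝ) : Continuous (qf A) := by
  unfold qf
  fun_prop

theorem exists_law {P : Prime} (hP : ¬ Bad P) : ∃ (F : ℂ → ℂ) (μ : Measure ℝ), IsLaw P F μ := by
  have key : ∀ v, ∃ θ : ℝ → ℝ, Theta θ (node P.D v) ∧ ∀ r : ℝ, 0 ≤ r → 0 < lapl θ r := by
    intro v
    obtain ⟨Φ, hΦ⟩ := good_node hP v
    exact theta_exists_pos hΦ
  choose θ hθ hpos using key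
  have hG := P.isGraph
  have hI := dens_integrable hθ
  have hd0 : ∀ X, 0 < dens θ X := by
    intro X
    unfold dens
    exact Finset.prod_pos fun v _ => hpos v _ (Finset.sum_nonneg fun i _ => sq_nonneg _)
  have hc := m8_cont (lkm P.D)⁻¹
  have hmeas : AEMeasurable (fun X : Fin (P.n + 1) × Fin 3 → ℝ => ENNReal.ofReal (dens θ X)) volume :=
    hI.aestronglyMeasurable.aemeasurable.ennreal_ofReal
  have hfin : IsFiniteMeasure ((volume : Measure (Fin (P.n + 1) × Fin 3 → ℝ)).withDensity
      fun X => ENNReal.ofReal (dens θ X)) := isFiniteMeasure_withDensity_ofReal hI.2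
  refine ⟨fun h => ∫ u in {u : Fin (P.n + 1) → ℝ | ∀ v, 0 < u v},
    ((∏ v, θ v (u v) : ℝ) : ℂ) * Kf (lkm P.D) h u,
    ((volume : Measure (Fin (P.n + 1) × Fin 3 → ℝ)).withDensity
      fun X => ENNReal.ofReal (dens θ X)).map (qf (lkm P.D)⁻¹), ?_⟩
  refine ⟨hg_F (isKer hG) hθ, ?_, ?_, ?_, fun s hs => law_null hI hs,
    fun s hs K => law_pos hI hd0 hs K⟩
  · infer_instance
  · intro h0
    have h1 := congrArg (fun m => m Set.univ) h0
    simp only [Measure.coe_zero, Pi.zero_apply] at h1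
    rw [Measure.map_apply hc.measurable MeasurableSet.univ, Set.preimage_univ,
      withDensity_apply _ MeasurableSet.univ, Measure.restrict_univ,
      lintegral_eq_zero_iff' hmeas] at h1
    have h2 : ∀ᵐ X : Fin (P.n + 1) × Fin 3 → ℝ, False := by
      filter_upwards [h1] with X hX
      have h3 : ENNReal.ofReal (dens θ X) = 0 := hX
      rw [ENNReal.ofReal_eq_zero] at h3
      exact absurd (hd0 X) (not_lt.2 h3)
    rw [Filter.eventually_false_iff_eq_bot, ae_eq_bot] at h2
    exact (NeZero.ne (volume : Measure (Fin (P.n + 1) × Fin 3 → ℝ))) h2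
  · obtain ⟨c, hc0, hk⟩ := kernel_gauss (lkm P.D) (m8_herm hG) (lkm_det hG)
    refine ⟨c, hc0, ?_⟩
    intro t ht
    rw [charFun_apply_real, integral_map hc.aemeasurable (by
      refine Continuous.aestronglyMeasurable ?_
      fun_prop), integral_withDensity_eq_integral_toReal_smul₀ hmeas (by simp)]
    have e1 : ∀ X : Fin (P.n + 1) × Fin 3 → ℝ, (ENNReal.ofReal (dens θ X)).toReal •
        Complex.exp (t * (qf (lkm P.D)⁻¹ X : ℝ) * Complex.I) =
        ((dens θ X : ℝ) : ℂ) * Complex.exp (Complex.I * ((t * qf (lkm P.D)⁻¹ X : ℝ) : ℂ)) := by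
      intro X
      rw [ENNReal.toReal_ofReal (hd0 X).le, Complex.real_smul]
      push_cast
      congr 2
      ring
    simp only [e1]
    rw [← dens_fubini hθ (fun X => t * qf (lkm P.D)⁻¹ X) (by fun_prop)]
    have hms : MeasurableSet {u : Fin (P.n + 1) → ℝ | ∀ v, 0 < u v} := by
      have : {u : Fin (P.n + 1) → ℝ | ∀ v, 0 < u v} = ⋂ v, {u | 0 < u v} := by
        ext u
        simp
      rw [this]
      exact MeasurableSet.iInter fun v => measurableSet_lt measurable_const (measurable_pi_apply v)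
    rw [← integral_const_mul]
    refine setIntegral_congr_fun hms fun u hu => ?_
    have h1 := hk t u ht hu
    have e2 : ∀ X : Fin (P.n + 1) × Fin 3 → ℝ,
        Complex.exp (-((∑ v, u v * ∑ i, X (v, i) ^ 2 : ℝ) : ℂ) +
          Complex.I * ((t * qf (lkm P.D)⁻¹ X : ℝ) : ℂ)) =
        Complex.exp (-((∑ v, u v * ∑ i, X (v, i) ^ 2 : ℝ) : ℂ) +
          Complex.I * t * ((qf (lkm P.D)⁻¹ X : ℝ) : ℂ)) := by
      intro X
      congr 2
      push_cast
      ring
    simp only [e2, h1, Fintype.card_fin]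
    push_cast
    ring

end Pool.Agent.SLR
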