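import Pool.Agent.SLR.Defs
import Pool.Agent.OHG.All
import Pool.Agent.OHT.Final

set_option autoImplicit false

open PowerSeries Finset MeasureTheory

namespace Pool.Agent.SLR

open Pool.Agent.OHG Pool.Agent.GPC

variable {V : Type} [Fintype V] [DecidableEq V]

theorem eq_smul_of_charFun {μ ν : Measure ℝ} [IsFiniteMeasure μ] [IsFiniteMeasure ν] (hμ : μ ≠ 0)
    (hν : ν ≠ 0) {c : ℂ} (h : ∀ t : ℝ, 0 < t → charFun μ t = c * charFun ν t) :
    ∃ r : NNReal, r ≠ 0 ∧ μ = r • ν := by
  have h0 : charFun μ 0 = c * charFun ν 0 := by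
    have l1 : Filter.Tendsto (charFun μ) (nhdsWithin 0 (Set.Ioi 0)) (nhds (charFun μ 0)) :=
      (continuous_charFun.tendsto 0).mono_left nhdsWithin_le_nhds
    have l2 : Filter.Tendsto (fun t => c * charFun ν t) (nhdsWithin 0 (Set.Ioi 0))
        (nhds (c * charFun ν 0)) :=
      ((continuous_const.mul continuous_charFun).tendsto 0).mono_left nhdsWithin_le_nhds
    refine tendsto_nhds_unique (l1.congr' ?_) l2
    filter_upwards [self_mem_nhdsWithin] with t ht using h t ht
  rw [charFun_zero, charFun_zero] at h0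
  have m1 : μ.real Set.univ ≠ 0 := by
    simpa [measureReal_eq_zero_iff] using hμ
  have m2 : ν.real Set.univ ≠ 0 := by
    simpa [measureReal_eq_zero_iff] using hν
  have p1 : 0 < μ.real Set.univ := lt_of_le_of_ne measureReal_nonneg (Ne.symm m1)
  have p2 : 0 < ν.real Set.univ := lt_of_le_of_ne measureReal_nonneg (Ne.symm m2)
  have hr : 0 < μ.real Set.univ / ν.real Set.univ := div_pos p1 p2
  have hc : c = ((μ.real Set.univ / ν.real Set.univ : ℝ) : ℂ) := by
    have : (ν.real Set.univ : ℂ) ≠ 0 := by exact_mod_cast m2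
    push_cast
    field_simp
    exact h0.symm
  obtain ⟨r, hrr⟩ : ∃ r : NNReal, (r : ℝ) = μ.real Set.univ / ν.real Set.univ :=
    ⟨Real.toNNReal _, Real.coe_toNNReal _ hr.le⟩
  rw [← hrr] at hr hc
  refine ⟨r, fun e => ?_, ?_⟩
  · rw [e] at hr
    simp at hr
  · have sm : ∀ t, charFun (r • ν) t = c * charFun ν t := by
      intro t
      rw [charFun_apply, charFun_apply, integral_smul_nnreal_measure, hc]
      rfl
    refine Measure.ext_of_charFun ?_
    funext t
    rw [sm]
    rcases lt_trichotomy t 0 with ht | ht | ht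
    · have e := h (-t) (by linarith)
      rw [charFun_neg, charFun_neg] at e
      have e2 := congrArg (starRingEnd ℂ) e
      rw [map_mul, Complex.conj_conj, Complex.conj_conj, hc, Complex.conj_ofReal] at e2
      rw [hc]
      exact e2
    · subst ht
      rw [charFun_zero, charFun_zero]
      exact h0
    · exact h t ht

end Pool.Agent.SLR
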