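import Pool.Agent.SLR.Defs
import Pool.Agent.OHG.All
import Pool.Agent.OHT.Final
import Pool.Agent.GPC.K6d

set_option autoImplicit false

open PowerSeries Finset MeasureTheory

namespace Pool.Agent.SLR

open Pool.Agent.OHG Pool.Agent.GPC

variable {V : Type} [Fintype V] [DecidableEq V]

private theorem M9_qd (A : Matrix V V ℝ) (x : V → ℝ) :
    qd A x = dotProduct x (A.mulVec x) := by
  unfold qd dotProduct Matrix.mulVec dotProduct
  refine Finset.sum_congr rfl (fun v _ => ?_)
  rw [Finset.mul_sum]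
  refine Finset.sum_congr rfl (fun w _ => ?_)
  ring

private theorem M9_symm {A : Matrix V V ℝ} (hA : A.transpose = A) (x y : V → ℝ) :
    dotProduct x (A.mulVec y) = dotProduct y (A.mulVec x) := by
  rw [Matrix.dotProduct_mulVec, ← Matrix.mulVec_transpose, hA, dotProduct_comm]

private theorem M9_inv {A : Matrix V V ℝ} (hA : A.transpose = A) (hd : A.det ≠ 0) (x : V → ℝ) :
    qd A⁻¹ (A.mulVec x) = qd A x := by
  have hu : IsUnit A.det := isUnit_iff_ne_zero.2 hd
  rw [M9_qd, M9_qd, Matrix.mulVec_mulVec, Matrix.nonsing_inv_mul _ hu, Matrix.one_mulVec,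
    dotProduct_comm]

private theorem M9_add {A : Matrix V V ℝ} (hA : A.transpose = A) (x y : V → ℝ) (t : ℝ) :
    qd A (x + t • y) = qd A x + 2 * t * dotProduct y (A.mulVec x) + t ^ 2 * qd A y := by
  rw [M9_qd, M9_qd, M9_qd, Matrix.mulVec_add, Matrix.mulVec_smul]
  simp only [add_dotProduct, dotProduct_add, smul_dotProduct, dotProduct_smul, smul_eq_mul]
  rw [M9_symm hA x y]
  ring

private theorem M9_pos {A : Matrix V V ℝ} (hA : A.transpose = A) (hd : A.det ≠ 0) (s : ℝ)
    (hs : s = 1 ∨ s = -1) (h : ∀ x, 0 ≤ s * qd A⁻¹ x) (x : V → ℝ) (hx : x ≠ 0) :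
    0 < s * qd A x := by
  have hge : ∀ z : V → ℝ, 0 ≤ s * qd A z := by
    intro z
    have h1 := h (A.mulVec z)
    rwa [M9_inv hA hd] at h1
  refine lt_of_le_of_ne (hge x) ?_
  intro h0
  have hu : IsUnit A.det := isUnit_iff_ne_zero.2 hd
  set y : V → ℝ := A.mulVec x with hy
  have hy0 : y ≠ 0 := by
    intro h2
    apply hx
    have h3 : A⁻¹.mulVec y = x := by
      rw [hy, Matrix.mulVec_mulVec, Matrix.nonsing_inv_mul _ hu, Matrix.one_mulVec]
    rw [← h3, h2, Matrix.mulVec_zero]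
  set N : ℝ := dotProduct y y with hN
  have hNpos : 0 < N := by
    have h4 : 0 ≤ N := by
      rw [hN]
      unfold dotProduct
      exact Finset.sum_nonneg (fun i _ => mul_self_nonneg _)
    refine lt_of_le_of_ne h4 ?_
    intro h5
    exact hy0 (dotProduct_self_eq_zero.1 h5.symm)
  set c : ℝ := s * qd A y with hc
  have hc0 : 0 ≤ c := hge y
  set ε : ℝ := N / (c + 1) with hε
  have hε0 : 0 < ε := by positivity
  have h6 := hge (x + (-s * ε) • y)
  rw [M9_add hA] at h6
  have hss : s * s = 1 := by rcases hs with rfl | rfl <;> norm_num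
  have h7 : s * (qd A x + 2 * (-s * ε) * dotProduct y (A.mulVec x) + (-s * ε) ^ 2 * qd A y) =
      s * qd A x + (-(2 * ε * N)) * (s * s) + ε ^ 2 * c * (s * s) := by
    rw [hc, hN, ← hy]
    ring
  rw [h7, hss, ← h0] at h6
  have h8 : ε * (c + 1) = N := by
    rw [hε]
    field_simp
  have h9 : ε ^ 2 * c ≤ ε * N := by
    have : ε * c ≤ N := by nlinarith
    nlinarith
  nlinarith [mul_pos hε0 hNpos]

theorem definite_iff {s : ℤ} (hs : s = 1 ∨ s = -1) (P : Prime) :
    Definite s P ↔ ∀ x, 0 ≤ (s : ℝ) * qd (lkm P.D)⁻¹ x := by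
  have hd : (lkm P.D).det ≠ 0 := lkm_det P.isGraph
  have hu : IsUnit (lkm P.D).det := isUnit_iff_ne_zero.2 hd
  have hA : (lkm P.D).transpose = lkm P.D := by
    ext v w
    simp only [lkm, Matrix.transpose_apply, Matrix.of_apply]
    rw [lk_comm]
  have hs' : (s : ℝ) = 1 ∨ (s : ℝ) = -1 := by
    rcases hs with rfl | rfl
    · left; norm_num
    · right; norm_num
  have hsum : ∀ x : Fin (P.n + 1) → ℝ,
      ∑ v, ∑ w, (s : ℝ) * (P.D.lk v w : ℝ) * x v * x w = (s : ℝ) * qd (lkm P.D) x := by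
    intro x
    unfold qd
    rw [Finset.mul_sum]
    refine Finset.sum_congr rfl (fun v _ => ?_)
    rw [Finset.mul_sum]
    refine Finset.sum_congr rfl (fun w _ => ?_)
    simp only [lkm, Matrix.of_apply]
    ring
  constructor
  · intro h y
    have h1 : (lkm P.D).mulVec ((lkm P.D)⁻¹.mulVec y) = y := by
      rw [Matrix.mulVec_mulVec, Matrix.mul_nonsing_inv _ hu, Matrix.one_mulVec]
    rw [← h1, M9_inv hA hd]
    by_cases h0 : (lkm P.D)⁻¹.mulVec y = 0
    · rw [h0]
      simp [qd]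
    · rw [← hsum]
      exact (h _ h0).le
  · intro h x hx
    rw [hsum]
    exact M9_pos hA hd s hs' h x hx

end Pool.Agent.SLR
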