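import Pool.Agent.OHG.Defs

/-!
# Definite splice diagrams
-/

set_option autoImplicit false

open Finset

namespace Pool.Agent.SLR

open Pool.Agent.OHG

/-- The matrix `(s ℓ_vw)` of the linking numbers of the nodes, multiplied by the sign `s`, is
positive definite. For `s = 1` this says that the homology sphere is the link of a normal surface
singularity, and for `s = -1` that it becomes one when its orientation is reversed. -/
def Definite (s : ℤ) (P : Prime) : Prop :=
  ∀ x : Fin (P.n + 1) → ℝ, x ≠ 0 → 0 < ∑ v, ∑ w, (s : ℝ) * (P.D.lk v w : ℝ) * x v * x w

end Pool.Agent.SLR
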