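import Pool.Agent.GPC.Defs
import Pool.Agent.SLR.Definite
import Pool.Agent.OHT.Defs2

/-!
# Auxiliary definitions
-/

set_option autoImplicit false

open PowerSeries Finset MeasureTheory

namespace Pool.Agent.SLR

open Pool.Agent.OHG Pool.Agent.GPC

noncomputable instance (P : Prime) : Decidable (Bad P) := Classical.dec _

variable {V : Type} [Fintype V] [DecidableEq V]

/-- The quadratic form of a matrix. -/
noncomputable def qd (A : Matrix V V ℝ) (x : V → ℝ) : ℝ := ∑ v, ∑ w, A v w * x v * x w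

/-- The Laplace transform of `θ`. -/
noncomputable def lapl (θ : ℝ → ℝ) (r : ℝ) : ℝ :=
  ∫ u in Set.Ioi (0 : ℝ), Real.exp (-(u * r)) * θ u

/-- The product of the Laplace transforms of the `θ_v` at `|X_v| ^ 2`. -/
noncomputable def dens (θ : V → ℝ → ℝ) (X : V × Fin 3 → ℝ) : ℝ :=
  ∏ v, lapl (θ v) (∑ i, X (v, i) ^ 2)

/-- The measure `μ` on the real line is, up to the factors of the Gaussian integral, the Fourier
transform of the function `F` of the prime graph homology sphere `P` on the imaginary axis. -/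
structure IsLaw (P : Prime) (F : ℂ → ℂ) (μ : Measure ℝ) : Prop where
  hg : HG F (part P.D)
  fin : IsFiniteMeasure μ
  ne : μ ≠ 0
  char : ∃ c : ℂ, c ≠ 0 ∧ ∀ t : ℝ, 0 < t →
    charFun μ t = c * ((t ^ (-(3 / 2 : ℝ) * (P.n + 1)) : ℝ) : ℂ) * F (Complex.I / (4 * t))
  null : ∀ s : ℝ, (∀ x, 0 ≤ s * qd (lkm P.D)⁻¹ x) → μ {y | s * y < 0} = 0
  pos : ∀ s : ℝ, (∃ x, s * qd (lkm P.D)⁻¹ x < 0) → ∀ K : ℝ, μ {y | s * y < -K} ≠ 0

/-- The growth of the coefficients is `T ^ k k!`, and the signs alternate. -/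
structure Growth (T : ℝ) (f : ℝ⟦X⟧) : Prop where
  up : ∀ ρ : ℝ, T < ρ → OHT.Gev ρ f
  low : ∀ ρ : ℝ, 0 < ρ → ρ < T → ¬ OHT.Gev ρ f
  sign : ∀ k, 0 ≤ (-1) ^ k * coeff k f
  one : coeff 0 f = 1

end Pool.Agent.SLR
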