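import Pool.Agent.SLR.Defs
import Pool.Agent.OHG.All
import Pool.Agent.OHT.Final

set_option autoImplicit false

open PowerSeries Finset MeasureTheory

namespace Pool.Agent.SLR

open Pool.Agent.OHG Pool.Agent.GPC

variable {V : Type} [Fintype V] [DecidableEq V]

private theorem m10_meas (s K : ℝ) : MeasurableSet {y : ℝ | s * y < K} :=
  measurableSet_lt (measurable_const.mul measurable_id) measurable_const

private theorem m10_conv (μ ν : Measure ℝ) [IsFiniteMeasure μ] [IsFiniteMeasure ν] (s K : ℝ) :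
    (μ ∗ ν) {y | s * y < K} = (μ.prod ν) {p : ℝ × ℝ | s * (p.1 + p.2) < K} := by
  rw [Measure.conv, Measure.map_apply (by fun_prop : Measurable fun x : ℝ × ℝ => x.1 + x.2) (m10_meas s K)]
  rfl

theorem conv_null {μ ν : Measure ℝ} [IsFiniteMeasure μ] [IsFiniteMeasure ν] {s : ℝ}
    (hμ : μ {y | s * y < 0} = 0) (hν : ν {y | s * y < 0} = 0) :
    (μ ∗ ν) {y | s * y < 0} = 0 := by
  rw [m10_conv]
  refine measure_mono_null (t := ({y | s * y < 0} ×ˢ Set.univ) ∪ (Set.univ ×ˢ {y | s * y < 0})) ?_ ?_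
  · rintro ⟨x, y⟩ h
    simp only [Set.mem_ofPred_eq] at h
    simp only [Set.mem_union, Set.mem_prod, Set.mem_ofPred_eq, Set.mem_univ, and_true, true_and]
    by_contra hc
    push Not at hc
    have : s * (x + y) = s * x + s * y := by ring
    linarith [hc.1, hc.2]
  · rw [measure_union_null_iff, Measure.prod_prod, Measure.prod_prod, hμ, hν]
    simp

theorem conv_pos {μ ν : Measure ℝ} [IsFiniteMeasure μ] [IsFiniteMeasure ν] {s : ℝ}
    (hμ : ∀ K : ℝ, μ {y | s * y < -K} ≠ 0) (hν : ν ≠ 0) (K : ℝ) :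
    (μ ∗ ν) {y | s * y < -K} ≠ 0 := by
  obtain ⟨n, hn⟩ : ∃ n : ℕ, ν {y | s * y < n} ≠ 0 := by
    by_contra hc
    push Not at hc
    apply hν
    rw [← Measure.measure_univ_eq_zero]
    refine measure_mono_null (t := ⋃ n : ℕ, {y : ℝ | s * y < n}) ?_ (measure_iUnion_null hc)
    intro y _
    obtain ⟨n, hn⟩ := exists_nat_gt (s * y)
    exact Set.mem_iUnion.2 ⟨n, hn⟩
  rw [m10_conv]
  intro h0
  have h1 : (μ.prod ν) ({y | s * y < -(K + n)} ×ˢ {y | s * y < n}) = 0 := by
    refine measure_mono_null ?_ h0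
    rintro ⟨x, y⟩ ⟨hx, hy⟩
    simp only [Set.mem_ofPred_eq] at hx hy ⊢
    have : s * (x + y) = s * x + s * y := by ring
    linarith
  rw [Measure.prod_prod] at h1
  rcases mul_eq_zero.1 h1 with h | h
  · exact hμ _ h
  · exact hn h

theorem conv_ne_zero {μ ν : Measure ℝ} [IsFiniteMeasure μ] [IsFiniteMeasure ν] (hμ : μ ≠ 0)
    (hν : ν ≠ 0) : μ ∗ ν ≠ 0 := by
  intro h
  have h1 : (μ ∗ ν) Set.univ = μ Set.univ * ν Set.univ := by
    rw [Measure.conv, Measure.map_apply (by fun_prop : Measurable fun x : ℝ × ℝ => x.1 + x.2) MeasurableSet.univ,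
      Set.preimage_univ, ← Set.univ_prod_univ, Measure.prod_prod]
  rw [h, Measure.coe_zero, Pi.zero_apply] at h1
  rcases mul_eq_zero.1 h1.symm with h2 | h2
  · exact hμ (Measure.measure_univ_eq_zero.1 h2)
  · exact hν (Measure.measure_univ_eq_zero.1 h2)

end Pool.Agent.SLR
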