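import Pool.Agent.SLR.Defs
import Pool.Agent.GPC.S1
import Pool.Agent.GPC.Z1

set_option autoImplicit false

open PowerSeries Finset MeasureTheory

namespace Pool.Agent.SLR

open Pool.Agent.OHG Pool.Agent.GPC

private theorem m12_ext {P Q : Prime} (hP : Bad P) (hQ : Bad Q) (h : P.D.sgn 0 = Q.D.sgn 0) :
    P = Q := by
  obtain ⟨x, rfl⟩ := exists_ofIdx hP.1
  obtain ⟨y, rfl⟩ := exists_ofIdx hQ.1
  have h1 : x.1.2 = y.1.2 := hP.2.trans hQ.2.symm
  have h2 : x.1.1 = y.1.1 := by
    have h3 : (if x.1.1 then (1 : ℤ) else -1) = if y.1.1 then 1 else -1 := h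
    cases hx : x.1.1 <;> cases hy : y.1.1 <;> simp [hx, hy] at h3 ⊢
  congr 1
  exact Subtype.ext (Prod.ext h2 h1)

private theorem m12_count [DecidableEq Prime] {P : Prime} (hP : Bad P) (M : Multiset Prime) :
    M.count P = M.countP fun Q => Bad Q ∧ Q.D.sgn 0 = P.D.sgn 0 := by
  unfold Multiset.count
  refine Multiset.countP_congr rfl fun Q _ => propext ?_
  constructor
  · rintro rfl
    exact ⟨hP, rfl⟩
  · rintro ⟨h1, h2⟩
    exact m12_ext hP h1 h2.symm

/-- the identity of power series -/
theorem part_prod_eq {κ κ' : ℝ} {M M' : Multiset Prime} (h : series κ M = series κ' M') :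
    (M.map fun P => part P.D).prod = (M'.map fun P => part P.D).prod := by
  obtain ⟨hc, -, hk⟩ := pieces κ κ' M M' h
  subst hk
  have h0 : constantCoeff sinhcHalf ≠ (0 : ℝ) := by
    rw [← coeff_zero_eq_constantCoeff_apply]
    unfold sinhcHalf
    rw [coeff_mk]
    simp
  have h1 : sinhcHalf * sinhcHalf⁻¹ = (1 : ℝ⟦X⟧) := PowerSeries.mul_inv_cancel _ h0
  have h2 : ∀ N : Multiset Prime, (N.map fun P => sinhcHalf⁻¹ * part P.D).prod =
      sinhcHalf⁻¹ ^ (Multiset.card N) * (N.map fun P => part P.D).prod := by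
    intro N
    rw [Multiset.prod_map_mul, Multiset.map_const', Multiset.prod_replicate]
  unfold series at h
  rw [h2, h2, hc, ← mul_assoc, ← mul_assoc] at h
  have h3 : sinhcHalf⁻¹ ≠ (0 : ℝ⟦X⟧) := by
    intro h4
    rw [h4, mul_zero] at h1
    exact zero_ne_one h1
  have h5 : rescale κ (PowerSeries.exp ℝ) ≠ 0 := by
    intro h6
    have h7 := congrArg (coeff 0) h6
    rw [coeff_rescale, coeff_exp, map_zero] at h7
    simp at h7
  exact mul_left_cancel₀ (mul_ne_zero h5 (pow_ne_zero _ h3)) h

theorem strip {κ κ' : ℝ} {M M' : Multiset Prime} (h : series κ M = series κ' M') :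
    (∀ P ∈ M', Bad P → P ∈ M) ∧
    ((M.filter fun P => ¬ Bad P).map fun P => part P.D).prod =
      ((M'.filter fun P => ¬ Bad P).map fun P => part P.D).prod ∧
    ((M.filter fun P => ¬ Bad P).map fun P => P.n + 1).sum =
      ((M'.filter fun P => ¬ Bad P).map fun P => P.n + 1).sum := by
  classical
  obtain ⟨h1, h2, h3, h4, h5⟩ := pieces' κ κ' M M' h
  have hcount : ∀ P, Bad P → M.count P = M'.count P := by
    intro P hP
    rw [m12_count hP, m12_count hP]
    rcases P.isGraph.sign 0 with hs | hs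
    · rw [hs]
      convert h4
    · rw [hs]
      convert h5
  have hbad : M.filter Bad = M'.filter Bad := by
    ext P
    rw [Multiset.count_filter, Multiset.count_filter]
    by_cases hP : Bad P
    · rw [if_pos hP, if_pos hP, hcount P hP]
    · rw [if_neg hP, if_neg hP]
  have hsplit : ∀ N : Multiset Prime, (N.filter Bad) + (N.filter fun P => ¬ Bad P) = N := fun N =>
    Multiset.filter_add_not _ _
  refine ⟨?_, ?_, ?_⟩
  · intro P hP hb
    have h6 : 0 < M'.count P := Multiset.count_pos.2 hP
    rw [← hcount P hb] at h6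
    exact Multiset.count_pos.1 h6
  · have h6 := part_prod_eq h
    rw [← hsplit M, ← hsplit M', Multiset.map_add, Multiset.map_add, Multiset.prod_add,
      Multiset.prod_add, hbad] at h6
    have h7 : ((M'.filter Bad).map fun P => part P.D).prod ≠ 0 := by
      intro h8
      obtain ⟨P, _, hP0⟩ := Multiset.mem_map.1 (Multiset.prod_eq_zero_iff.1 h8)
      have h9 := part_zero P.D
      rw [hP0] at h9
      simp at h9
    exact mul_left_cancel₀ h7 h6
  · rw [← hsplit M, ← hsplit M', Multiset.map_add, Multiset.map_add, Multiset.sum_add,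
      Multiset.sum_add, hbad] at h2
    exact Nat.add_left_cancel h2

end Pool.Agent.SLR
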