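import Pool.Agent.SLR.Defs
import Pool.Agent.OHG.All
import Pool.Agent.OHT.Final
import Pool.Agent.GPC.U3
import Pool.Agent.GPC.U4
import Pool.Agent.SLR.M8
import Pool.Agent.SLR.M9
import Pool.Agent.SLR.M10
import Pool.Agent.SLR.M11

set_option autoImplicit false

open PowerSeries Finset MeasureTheory

namespace Pool.Agent.SLR

open Pool.Agent.OHG Pool.Agent.GPC

variable {V : Type} [Fintype V] [DecidableEq V]

/-- The law of a connected sum. -/
private structure MLaw (s : ℤ) (N : Multiset Prime) (F : ℂ → ℂ) (μ : Measure ℝ) : Prop where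
  hg : HG F (N.map fun P => part P.D).prod
  fin : IsFiniteMeasure μ
  ne : μ ≠ 0
  char : ∃ c : ℂ, c ≠ 0 ∧ ∀ t : ℝ, 0 < t →
    charFun μ t = c * ((t ^ (-(3 / 2 : ℝ) * ((N.map fun P => P.n + 1).sum : ℕ)) : ℝ) : ℂ) *
      F (Complex.I / (4 * t))
  null : (∀ P ∈ N, Definite s P) → μ {y | (s : ℝ) * y < 0} = 0
  pos : (∃ P ∈ N, ¬ Definite s P) → ∀ K : ℝ, μ {y | (s : ℝ) * y < -K} ≠ 0

private theorem m13_zero (s : ℤ) : MLaw s 0 (fun _ => 1) (Measure.dirac 0) where
  hg := by simpa using hg_one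
  fin := inferInstance
  ne := by
    intro h
    have := congrArg (fun m : Measure ℝ => m Set.univ) h
    simp at this
  char := by
    refine ⟨1, one_ne_zero, fun t ht => ?_⟩
    simp [charFun_dirac]
  null := by
    intro _
    have : MeasurableSet {y : ℝ | (s : ℝ) * y < 0} :=
      measurableSet_lt (measurable_const.mul measurable_id) measurable_const
    rw [Measure.dirac_apply' _ this]
    simp
  pos := by
    rintro ⟨P, hP, _⟩
    simp at hP

private theorem m13_cons {s : ℤ} (hs : s = 1 ∨ s = -1) {P : Prime} {N : Multiset Prime}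
    {F G : ℂ → ℂ} {μ ν : Measure ℝ} (hP : IsLaw P F μ) (hN : MLaw s N G ν) :
    MLaw s (P ::ₘ N) (fun h => F h * G h) (μ ∗ ν) := by
  have i1 : IsFiniteMeasure μ := hP.fin
  have i2 : IsFiniteMeasure ν := hN.fin
  refine ⟨?_, inferInstance, conv_ne_zero hP.ne hN.ne, ?_, ?_, ?_⟩
  · rw [Multiset.map_cons, Multiset.prod_cons]
    exact hP.hg.mul hN.hg
  · obtain ⟨c, hc, h1⟩ := hP.char
    obtain ⟨d, hd, h2⟩ := hN.char
    refine ⟨c * d, mul_ne_zero hc hd, fun t ht => ?_⟩
    rw [charFun_conv, h1 t ht, h2 t ht]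
    have e : t ^ (-(3 / 2 : ℝ) * (((P ::ₘ N).map fun P => P.n + 1).sum : ℕ)) =
        t ^ (-(3 / 2 : ℝ) * (P.n + 1)) * t ^ (-(3 / 2 : ℝ) * ((N.map fun P => P.n + 1).sum : ℕ)) := by
      rw [← Real.rpow_add ht]
      congr 1
      rw [Multiset.map_cons, Multiset.sum_cons]
      push_cast
      ring
    rw [e]
    push_cast
    ring
  · intro h
    refine conv_null ?_ (hN.null fun Q hQ => h Q (Multiset.mem_cons_of_mem hQ))
    exact hP.null s ((definite_iff hs P).1 (h P (Multiset.mem_cons_self P N)))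
  · rintro ⟨Q, hQ, hQd⟩ K
    by_cases h : Definite s P
    · have hQN : Q ∈ N := by
        rcases Multiset.mem_cons.1 hQ with rfl | h'
        · exact absurd h hQd
        · exact h'
      rw [Measure.conv_comm]
      exact conv_pos (hN.pos ⟨Q, hQN, hQd⟩) hP.ne K
    · have : ∃ x, (s : ℝ) * qd (lkm P.D)⁻¹ x < 0 := by
        by_contra hc
        push Not at hc
        exact h ((definite_iff hs P).2 hc)
      exact conv_pos (hP.pos s this) hN.ne K

private theorem m13_exists {s : ℤ} (hs : s = 1 ∨ s = -1) (N : Multiset Prime)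
    (hN : ∀ P ∈ N, ¬ Bad P) : ∃ (F : ℂ → ℂ) (μ : Measure ℝ), MLaw s N F μ := by
  induction N using Multiset.induction_on with
  | empty => exact ⟨_, _, m13_zero s⟩
  | cons P N ih =>
    obtain ⟨G, ν, h2⟩ := ih fun Q hQ => hN Q (Multiset.mem_cons_of_mem hQ)
    obtain ⟨F, μ, h1⟩ := exists_law (hN P (Multiset.mem_cons_self P N))
    exact ⟨_, _, m13_cons hs h1 h2⟩

theorem definite_good {s : ℤ} (hs : s = 1 ∨ s = -1) {M M' : Multiset Prime}
    (hM : ∀ P ∈ M, ¬ Bad P) (hM' : ∀ P ∈ M', ¬ Bad P)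
    (h : (M.map fun P => part P.D).prod = (M'.map fun P => part P.D).prod)
    (hn : (M.map fun P => P.n + 1).sum = (M'.map fun P => P.n + 1).sum)
    (hd : ∀ P ∈ M, Definite s P) : ∀ P ∈ M', Definite s P := by
  obtain ⟨F, μ, h1⟩ := m13_exists hs M hM
  obtain ⟨F', μ', h2⟩ := m13_exists hs M' hM'
  have i1 : IsFiniteMeasure μ := h1.fin
  have i2 : IsFiniteMeasure μ' := h2.fin
  obtain ⟨c, hc, e1⟩ := h1.char
  obtain ⟨c', hc', e2⟩ := h2.char
  have hF : ∀ z ∈ UH, F z = F' z := HG.unique h1.hg (h ▸ h2.hg)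
  have key : ∀ t : ℝ, 0 < t → charFun μ t = (c / c') * charFun μ' t := by
    intro t ht
    have hz : Complex.I / (4 * t) ∈ UH := by
      have : (Complex.I / (4 * t) : ℂ) = ((1 / (4 * t) : ℝ) : ℂ) * Complex.I := by
        push_cast
        ring
      show 0 < (Complex.I / (4 * t) : ℂ).im
      rw [this, Complex.im_ofReal_mul, Complex.I_im, mul_one]
      positivity
    rw [e1 t ht, e2 t ht, hF _ hz, hn]
    field_simp
  obtain ⟨r, hr, e⟩ := eq_smul_of_charFun h1.ne h2.ne key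
  by_contra hcon
  push Not at hcon
  have h3 := h2.pos hcon 0
  have h4 := h1.null hd
  rw [neg_zero] at h3
  rw [e, Measure.smul_apply] at h4
  have : r • μ' {y | (s : ℝ) * y < 0} = 0 := h4
  rw [ENNReal.smul_def, smul_eq_mul, mul_eq_zero] at this
  rcases this with h5 | h5
  · exact hr (by simpa using h5)
  · exact h3 h5

end Pool.Agent.SLR
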