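import Pool.Agent.SLR.Defs
import Pool.Agent.OHG.All
import Pool.Agent.OHT.Final
import Pool.Agent.SLR.M12
import Pool.Agent.SLR.M13

set_option autoImplicit false

open PowerSeries Finset MeasureTheory

namespace Pool.Agent.SLR

open Pool.Agent.OHG Pool.Agent.GPC

theorem definite_mem {s : ℤ} (hs : s = 1 ∨ s = -1) {κ κ' : ℝ} {M M' : Multiset Prime}
    (h : series κ M = series κ' M') (hd : ∀ P ∈ M, Definite s P) : ∀ P ∈ M', Definite s P := by
  intro P hP
  obtain ⟨h1, h2, h3⟩ := strip h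
  by_cases hb : Bad P
  · exact hd P (h1 P hP hb)
  · exact definite_good hs (fun Q hQ => (Multiset.mem_filter.1 hQ).2)
      (fun Q hQ => (Multiset.mem_filter.1 hQ).2) h2 h3
      (fun Q hQ => hd Q (Multiset.mem_filter.1 hQ).1) P (Multiset.mem_filter.2 ⟨hP, hb⟩)

end Pool.Agent.SLR
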